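import Mathlib
import Pool.Agent.H.MP_59b15d_al.h76m.Defs

set_option autoImplicit false

namespace Pool.MP_59b15d_al.Sym

/-- The free group on `x_1, …, x_N`, the fundamental group of the sphere with `n = N + 1` punctures. -/
abbrev FF (N : ℕ) : Type := FreeGroup (Fin N)

/-- The loop `x_n = (x_1 ⋯ x_N)⁻¹` around the last puncture. -/
def xn (N : ℕ) : FF N := ((List.ofFn fun j : Fin N => FreeGroup.of j).prod)⁻¹

variable {N : ℕ}

/-- The loops around the punctures: `x_1, …, x_N` and the loop `x_n`. -/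
def per (j : Fin (N + 1)) : FF N :=
  if h : (j : ℕ) < N then FreeGroup.of ⟨j, h⟩ else xn N

theorem per_castSucc (j : Fin N) : per j.castSucc = FreeGroup.of j := by
  simp [per]

theorem per_last : per (Fin.last N) = xn N := by
  simp [per]

/-- The pure mapping class group of the punctured sphere, acting on the free group: all automorphisms
mapping every `x_j`, `j ≤ n`, to a conjugate. -/
def CP (N : ℕ) : Subgroup (MulAut (FF N)) where
  carrier := {f | ∀ j : Fin (N + 1), ∃ w : FF N, f (per j) = w * per j * w⁻¹}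
  mul_mem' := by
    intro f g hf hg j
    obtain ⟨w, hw⟩ := hg j
    obtain ⟨v, hv⟩ := hf j
    refine ⟨f w * v, ?_⟩
    change f (g (per j)) = _
    rw [hw, map_mul, map_mul, map_inv, hv]
    group
  one_mem' := fun j => ⟨1, by simp⟩
  inv_mem' := by
    intro f hf j
    obtain ⟨v, hv⟩ := hf j
    refine ⟨f⁻¹ v⁻¹, ?_⟩
    have h1 : f⁻¹ (f (per j)) = per j := by
      change (f⁻¹ * f) (per j) = per j
      rw [inv_mul_cancel]
      rfl
    have h2 : per j = f⁻¹ v * f⁻¹ (per j) * (f⁻¹ v)⁻¹ := by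
      rw [← map_inv, ← map_mul, ← map_mul, ← hv, h1]
    rw [map_inv]
    conv_rhs => rw [h2]
    group

theorem mem_CP {f : MulAut (FF N)} :
    f ∈ CP N ↔ ∀ j : Fin (N + 1), ∃ w : FF N, f (per j) = w * per j * w⁻¹ := Iff.rfl

/-- `R_e`: the normal subgroup generated by the `x_j ^ e_j`, `j ≤ n`. -/
def Rel (e : Fin (N + 1) → ℕ) : Subgroup (FF N) :=
  Subgroup.normalClosure (Set.range fun j => per j ^ e j)

/-- `R'`: the normal subgroup generated by the `x_j ^ e_j`, `j ≤ N`. -/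
def Rel' (e : Fin N → ℕ) : Subgroup (FF N) :=
  Subgroup.normalClosure (Set.range fun j => FreeGroup.of j ^ e j)

/-- `f` is the conjugation by `v` modulo `U`, on `D`. -/
def InnOn (U D : Subgroup (FF N)) (f : MulAut (FF N)) (v : FF N) : Prop :=
  ∀ y ∈ D, f y * (v * y * v⁻¹)⁻¹ ∈ U

/-- Levels: `U` is normal in `D`, of finite index, and contains the conjugates of the `x_j ^ e_j`,
`j ≤ N`, and of `x_n ^ m` by the elements of `T` (the killed faces). -/
structure Lev (e : Fin N → ℕ) (m : ℕ) (D : Subgroup (FF N)) (T : Set (FF N))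
    (U : Subgroup (FF N)) : Prop where
  le : U ≤ D
  nor : ∀ d ∈ D, ∀ u ∈ U, d * u * d⁻¹ ∈ U
  fin : U.FiniteIndex
  rel : ∀ (j : Fin N) (h : FF N), h * FreeGroup.of j ^ e j * h⁻¹ ∈ U
  kil : ∀ h ∈ T, h * xn N ^ m * h⁻¹ ∈ U

/-- The fundamental group of a surface of genus `m` with `s + 1` boundary curves. -/
abbrev Gg (m s : ℕ) : Type := FreeGroup ((Fin m ⊕ Fin m) ⊕ Fin s)

/-- The boundary word `∏ [a_i, b_i] * ∏ d_i`. -/
def cW (m s : ℕ) : Gg m s :=
  (List.ofFn fun i : Fin m =>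
      FreeGroup.of (Sum.inl (Sum.inl i) : (Fin m ⊕ Fin m) ⊕ Fin s) *
      FreeGroup.of (Sum.inl (Sum.inr i) : (Fin m ⊕ Fin m) ⊕ Fin s) *
      (FreeGroup.of (Sum.inl (Sum.inl i) : (Fin m ⊕ Fin m) ⊕ Fin s))⁻¹ *
      (FreeGroup.of (Sum.inl (Sum.inr i) : (Fin m ⊕ Fin m) ⊕ Fin s))⁻¹).prod *
  (List.ofFn fun i : Fin s =>
      FreeGroup.of (Sum.inr i : (Fin m ⊕ Fin m) ⊕ Fin s)).prod

end Pool.MP_59b15d_al.Sym
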