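import Mathlib
import Pool.Agent.H.MP_59b15d_al.sym.Defs
import Pool.Agent.H.MP_59b15d_al.h73s.Glue2
import Pool.Agent.H.MP_59b15d_al.h76r.Sd

set_option autoImplicit false

namespace Pool.MP_59b15d_al.Sym

/-- (GLUE) -- helper73.  `J i`: the boundary curve `d i` is not killed. -/
theorem glue {m s : ℕ} (J : Fin s → Prop) (h3 : 3 ≤ m + Nat.card {i // J i}) (U : Subgroup (Gg m s))
    (hU : U.Normal) (hf : U.FiniteIndex) (hK : ∀ i, ¬ J i → FreeGroup.of (Sum.inr i) ∈ U) :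
    ∃ Γ : Subgroup (Gg m s), Γ.Normal ∧ Γ.FiniteIndex ∧ cW m s ∈ Γ ∧
      (∀ i, ¬ J i → FreeGroup.of (Sum.inr i) ∈ Γ) ∧
      ∀ (f : MulAut (Gg m s)) (w : Fin s → Gg m s), f (cW m s) = cW m s →
        (∀ i, f (FreeGroup.of (Sum.inr i)) = w i * FreeGroup.of (Sum.inr i) * (w i)⁻¹) →
        (∀ i, J i → w i ∈ Γ) → (∀ z, f z * z⁻¹ ∈ Γ) →
        ∃ k : ℤ, ∀ z, f z * (cW m s ^ k * z * (cW m s ^ k)⁻¹)⁻¹ ∈ U := by
  classical
  have h4 : Nat.card {i // J i} = Pool.MP_59b15d_al.H73S.cnt J s := by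
    rw [Nat.card_eq_fintype_card, Fintype.card_subtype, Pool.MP_59b15d_al.H73S.cnt]
    congr 1
    ext i
    simp only [Finset.mem_filter, Finset.mem_univ, true_and]
    exact ⟨fun h => ⟨h, i.2⟩, fun h => h.1⟩
  rw [h4] at h3
  exact Pool.MP_59b15d_al.H73S.glue J h3 U hU hf hK

end Pool.MP_59b15d_al.Sym
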