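import Mathlib
import Pool.Agent.H.MP_59b15d_al.sym.Defs
import Pool.Agent.H.MP_59b15d_al.h73s.Art1

set_option autoImplicit false

namespace Pool.MP_59b15d_al.Sym

variable {N : ℕ}

/-- `f` is the braid automorphism `σ_i : x_i ↦ x_i x_{i+1} x_i⁻¹, x_{i+1} ↦ x_i`. -/
def IsSig (i j : Fin N) (f : MulAut (FF N)) : Prop :=
  f (FreeGroup.of i) = FreeGroup.of i * FreeGroup.of j * (FreeGroup.of i)⁻¹ ∧
    f (FreeGroup.of j) = FreeGroup.of i ∧ ∀ k, k ≠ i → k ≠ j → f (FreeGroup.of k) = FreeGroup.of k

/-- The braid group, generated by the `σ_i`. -/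
def Br (N : ℕ) : Subgroup (MulAut (FF N)) :=
  Subgroup.closure {f | ∃ i j : Fin N, (j : ℕ) = i + 1 ∧ IsSig i j f}

/-- the braid automorphism on generators -/
def sga (i j : Fin N) : FF N →* FF N :=
  FreeGroup.lift fun k => if k = i then FreeGroup.of i * FreeGroup.of j * (FreeGroup.of i)⁻¹
    else if k = j then FreeGroup.of i else FreeGroup.of k

/-- its inverse -/
def sga' (i j : Fin N) : FF N →* FF N :=
  FreeGroup.lift fun k => if k = i then FreeGroup.of j
    else if k = j then (FreeGroup.of j)⁻¹ * FreeGroup.of i * FreeGroup.of j else FreeGroup.of k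

theorem sg_sg' (i j : Fin N) (hij : j ≠ i) : (sga i j).comp (sga' i j) = MonoidHom.id _ := by
  apply FreeGroup.ext_hom
  intro k
  simp only [MonoidHom.comp_apply, MonoidHom.id_apply, sga', FreeGroup.lift_apply_of]
  by_cases h1 : k = i
  · subst h1
    simp [sga, hij]
  · by_cases h2 : k = j
    · subst h2
      simp [sga, h1, mul_assoc]
    · simp [sga, h1, h2]

theorem sga'_sga (i j : Fin N) (hij : j ≠ i) : (sga' i j).comp (sga i j) = MonoidHom.id _ := by
  apply FreeGroup.ext_hom
  intro k
  simp only [MonoidHom.comp_apply, MonoidHom.id_apply, sga, FreeGroup.lift_apply_of]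
  by_cases h1 : k = i
  · subst h1
    simp [sga', hij, mul_assoc]
  · by_cases h2 : k = j
    · subst h2
      simp [sga', h1]
    · simp [sga', h1, h2]

/-- the braid automorphism -/
def sig (i j : Fin N) (hij : j ≠ i) : MulAut (FF N) :=
  MonoidHom.toMulEquiv (sga i j) (sga' i j) (sga'_sga i j hij) (sg_sg' i j hij)

theorem sig_apply (i j : Fin N) (hij : j ≠ i) (x : FF N) : sig i j hij x = sga i j x := rfl

theorem isSig_sig (i j : Fin N) (hij : j ≠ i) : IsSig i j (sig i j hij) := by
  refine ⟨?_, ?_, ?_⟩
  · rw [sig_apply]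
    simp [sga]
  · rw [sig_apply]
    simp [sga, hij]
  · intro k h1 h2
    rw [sig_apply]
    simp [sga, h1, h2]

theorem sig_mem (i j : Fin N) (hij : j ≠ i) (h : (j : ℕ) = i + 1) : sig i j hij ∈ Br N :=
  Subgroup.subset_closure ⟨i, j, h, isSig_sig i j hij⟩

theorem prod_swap {G : Type} [Group G] : ∀ (M : ℕ) (u v : Fin M → G) (i j : Fin M),
    (j : ℕ) = i + 1 → u i * u j = v i * v j → (∀ k, k ≠ i → k ≠ j → u k = v k) →
    (List.ofFn u).prod = (List.ofFn v).prod := by
  intro M
  induction M with
  | zero => intro u v i; exact i.elim0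
  | succ M ih =>
    intro u v i j hij h1 h2
    rw [List.ofFn_succ, List.ofFn_succ, List.prod_cons, List.prod_cons]
    rcases Fin.eq_zero_or_eq_succ i with hi | ⟨i', hi⟩
    · subst hi
      rcases M with _ | M
      · exfalso
        have := j.isLt
        simp at hij
      · have hj : j = Fin.succ 0 := by
          ext
          rw [hij]
          simp
        subst hj
        rw [List.ofFn_succ, List.ofFn_succ, List.prod_cons, List.prod_cons, ← mul_assoc,
          ← mul_assoc, h1]
        congr 2
        congr 1
        funext k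
        apply h2
        · exact Fin.succ_ne_zero _
        · intro h
          exact Fin.succ_ne_zero k (Fin.succ_injective _ h)
    · obtain ⟨j', hj⟩ : ∃ j' : Fin M, j = Fin.succ j' := by
        rcases Fin.eq_zero_or_eq_succ j with h | h
        · exfalso
          rw [h] at hij
          simp at hij
        · exact h
      subst hi
      subst hj
      rw [h2 0 (Fin.succ_ne_zero _).symm (Fin.succ_ne_zero _).symm]
      congr 1
      refine ih (fun k => u k.succ) (fun k => v k.succ) i' j' ?_ h1 ?_
      · simp only [Fin.val_succ] at hij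
        omega
      · intro k hk1 hk2
        apply h2
        · exact fun h => hk1 (Fin.succ_injective _ h)
        · exact fun h => hk2 (Fin.succ_injective _ h)

/-- the braid automorphisms fix the product of the generators -/
theorem sig_prod (i j : Fin N) (hij : j ≠ i) (h : (j : ℕ) = i + 1) :
    sig i j hij (List.ofFn fun k : Fin N => (FreeGroup.of k : FF N)).prod =
      (List.ofFn fun k : Fin N => (FreeGroup.of k : FF N)).prod := by
  rw [map_list_prod, List.map_ofFn]
  obtain ⟨h1, h2, h3⟩ := isSig_sig i j hij
  refine prod_swap N _ _ i j h ?_ ?_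
  · simp only [Function.comp_apply]
    rw [h1, h2]
    group
  · intro k hk1 hk2
    exact h3 k hk1 hk2

theorem sum_lt2 (a b : Fin N → ℕ) (i j : Fin N) (hij : j ≠ i)
    (h : ∀ k, k ≠ i → k ≠ j → a k = b k) (h' : a i + a j < b i + b j) :
    ∑ k, a k < ∑ k, b k := by
  classical
  have e : ∀ c : Fin N → ℕ, ∑ k, c k = c i + (c j + ∑ k ∈ (Finset.univ.erase i).erase j, c k) := by
    intro c
    rw [← Finset.add_sum_erase Finset.univ c (Finset.mem_univ i),
      ← Finset.add_sum_erase (Finset.univ.erase i) c
        (Finset.mem_erase.mpr ⟨hij, Finset.mem_univ j⟩)]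
  rw [e a, e b]
  have : ∑ k ∈ (Finset.univ.erase i).erase j, a k = ∑ k ∈ (Finset.univ.erase i).erase j, b k := by
    apply Finset.sum_congr rfl
    intro k hk
    rw [Finset.mem_erase, Finset.mem_erase] at hk
    exact h k hk.2.1 hk.1
  omega

theorem sum_lt1 (a b : Fin N → ℕ) (i : Fin N)
    (h : ∀ k, k ≠ i → a k = b k) (h' : a i < b i) : ∑ k, a k < ∑ k, b k := by
  classical
  refine Finset.sum_lt_sum ?_ ⟨i, Finset.mem_univ i, h'⟩
  intro k _
  by_cases hk : k = i
  · subst hk; exact h'.le
  · exact (h k hk).le

theorem ok_ofFn {α : Type} [DecidableEq α] : ∀ (M : ℕ) (p : Fin (M + 1) → FreeGroup α × α),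
    (∀ i : Fin M, Art.Nb (p i.castSucc).1 (p i.castSucc).2 (p i.succ).1 (p i.succ).2) →
    (∀ i, Art.Gd (p i).1 (p i).2) →
    Art.Ok (p 0).1 (p 0).2 (List.ofFn fun i : Fin M => p i.succ) := by
  intro M
  induction M with
  | zero =>
    intro p _ h
    exact h 0
  | succ M ih =>
    intro p h1 h2
    rw [List.ofFn_succ]
    refine ⟨h1 0, ?_⟩
    exact ih (fun i => p i.succ) (fun i => h1 i.succ) (fun i => h2 i.succ)

theorem artin_aux (n : ℕ) : ∀ (f : MulAut (FF N)) (w : Fin N → FF N) (p : Fin N → Fin N),
    (∀ j, f (FreeGroup.of j) = w j * FreeGroup.of (p j) * (w j)⁻¹) →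
    f (List.ofFn fun k : Fin N => (FreeGroup.of k : FF N)).prod =
      (List.ofFn fun k : Fin N => (FreeGroup.of k : FF N)).prod →
    ∑ j, (w j).norm = n → f ∈ Br N := by
  induction n using Nat.strong_induction_on with
  | _ n ih =>
  intro f w p hf hx hn
  by_cases h0 : ∃ j, ¬ Art.Gd (w j) (p j)
  · obtain ⟨j, hj⟩ := h0
    obtain ⟨v, hv1, hv2⟩ := Art.not_Gd _ _ hj
    refine ih (∑ k, (Function.update w j v k).norm) ?_ f (Function.update w j v) p ?_ hx rfl
    · rw [← hn]
      refine sum_lt1 _ _ j ?_ ?_
      · intro k hk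
        rw [Function.update_of_ne hk]
      · rw [Function.update_self]
        exact hv2
    · intro k
      by_cases hk : k = j
      · subst hk
        rw [Function.update_self, hv1, hf]
      · rw [Function.update_of_ne hk, hf]
  push Not at h0
  by_cases hA : ∃ i j : Fin N, (j : ℕ) = i + 1 ∧ (p i, false) ∈ ((w i)⁻¹ * w j).toWord.head?
  · obtain ⟨i, j, hij, hA⟩ := hA
    have hne : j ≠ i := by
      intro h
      rw [h] at hij
      omega
    obtain ⟨s1, s2, s3⟩ := isSig_sig i j hne
    have hw := Art.norm_add (w i) (w j) (p i) false (h0 i) hA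
    have hr := Art.norm_head _ _ hA
    have key : f * sig i j hne ∈ Br N := by
      refine ih (∑ k, (Function.update (Function.update w i
        (w i * (FreeGroup.of (p i) * ((w i)⁻¹ * w j)))) j (w i) k).norm) ?_ (f * sig i j hne)
        (Function.update (Function.update w i
          (w i * (FreeGroup.of (p i) * ((w i)⁻¹ * w j)))) j (w i))
        (Function.update (Function.update p i (p j)) j (p i)) ?_ ?_ rfl
      · rw [← hn]
        refine sum_lt2 _ _ i j hne ?_ ?_
        · intro k h1 h2
          rw [Function.update_of_ne h2, Function.update_of_ne h1]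
        · rw [Function.update_of_ne hne.symm, Function.update_self, Function.update_self]
          have := FreeGroup.norm_mul_le (w i) (FreeGroup.of (p i) * ((w i)⁻¹ * w j))
          omega
      · intro k
        rw [MulAut.mul_apply]
        by_cases h1 : k = i
        · subst h1
          rw [Function.update_of_ne hne.symm, Function.update_self, Function.update_of_ne hne.symm,
            Function.update_self, s1, map_mul, map_mul, map_inv, hf, hf]
          group
        · by_cases h2 : k = j
          · subst h2
            rw [Function.update_self, Function.update_self, s2, hf]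
          · rw [Function.update_of_ne h2, Function.update_of_ne h1, Function.update_of_ne h2,
              Function.update_of_ne h1, s3 k h1 h2, hf]
      · rw [MulAut.mul_apply, sig_prod i j hne hij, hx]
    have h2 := (Br N).mul_mem key ((Br N).inv_mem (sig_mem i j hne hij))
    rwa [mul_inv_cancel_right] at h2
  by_cases hB : ∃ i j : Fin N, (j : ℕ) = i + 1 ∧
      (p j, false) ∈ ((w i)⁻¹ * w j).toWord.getLast?
  · obtain ⟨i, j, hij, hB⟩ := hB
    have hne : j ≠ i := by
      intro h
      rw [h] at hij
      omega
    obtain ⟨s1, s2, s3⟩ := isSig_sig i j hne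
    have hB' := Art.last_inv _ _ _ hB
    have hB2 : (p j, true) ∈ ((w j)⁻¹ * w i).toWord.head? := by
      have e : ((w i)⁻¹ * w j)⁻¹ = (w j)⁻¹ * w i := by group
      rw [← e]
      exact hB'
    have hw := Art.norm_add (w j) (w i) (p j) true (h0 j) hB2
    have hr := Art.norm_head' _ _ hB2
    have s1' : (sig i j hne)⁻¹ (FreeGroup.of i) = FreeGroup.of j := by
      have h : sig i j hne (FreeGroup.of j) = FreeGroup.of i := s2
      rw [← h]
      exact (sig i j hne).symm_apply_apply _
    have s2' : (sig i j hne)⁻¹ (FreeGroup.of j) =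
        (FreeGroup.of j)⁻¹ * FreeGroup.of i * FreeGroup.of j := by
      have h : sig i j hne ((FreeGroup.of j)⁻¹ * FreeGroup.of i * FreeGroup.of j) =
          FreeGroup.of j := by
        rw [map_mul, map_mul, map_inv, s1, s2]
        group
      conv_lhs => rw [← h]
      exact (sig i j hne).symm_apply_apply _
    have s3' : ∀ k, k ≠ i → k ≠ j → (sig i j hne)⁻¹ (FreeGroup.of k) = FreeGroup.of k := by
      intro k h1 h2
      conv_lhs => rw [← s3 k h1 h2]
      exact (sig i j hne).symm_apply_apply _
    have key : f * (sig i j hne)⁻¹ ∈ Br N := by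
      refine ih (∑ k, (Function.update (Function.update w i (w j)) j
        (w j * ((FreeGroup.of (p j))⁻¹ * ((w j)⁻¹ * w i))) k).norm) ?_ (f * (sig i j hne)⁻¹)
        (Function.update (Function.update w i (w j)) j
          (w j * ((FreeGroup.of (p j))⁻¹ * ((w j)⁻¹ * w i))))
        (Function.update (Function.update p i (p j)) j (p i)) ?_ ?_ rfl
      · rw [← hn]
        refine sum_lt2 _ _ i j hne ?_ ?_
        · intro k h1 h2
          rw [Function.update_of_ne h2, Function.update_of_ne h1]
        · rw [Function.update_of_ne hne.symm, Function.update_self, Function.update_self]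
          have := FreeGroup.norm_mul_le (w j) ((FreeGroup.of (p j))⁻¹ * ((w j)⁻¹ * w i))
          omega
      · intro k
        rw [MulAut.mul_apply]
        by_cases h1 : k = i
        · subst h1
          rw [Function.update_of_ne hne.symm, Function.update_self, Function.update_of_ne hne.symm,
            Function.update_self, s1', hf]
        · by_cases h2 : k = j
          · subst h2
            rw [Function.update_self, Function.update_self, s2', map_mul, map_mul, map_inv, hf, hf]
            group
          · rw [Function.update_of_ne h2, Function.update_of_ne h1, Function.update_of_ne h2,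
              Function.update_of_ne h1, s3' k h1 h2, hf]
      · rw [MulAut.mul_apply]
        have h := sig_prod i j hne hij
        conv_lhs => rw [← h]
        have h' : (sig i j hne)⁻¹ (sig i j hne (List.ofFn fun k : Fin N => (FreeGroup.of k : FF N)).prod)
          = (List.ofFn fun k : Fin N => (FreeGroup.of k : FF N)).prod :=
            (sig i j hne).symm_apply_apply _
        rw [h', hx]
    have h2 := (Br N).mul_mem key (sig_mem i j hne hij)
    rwa [inv_mul_cancel_right] at h2
  rcases N with _ | M
  · have : f = 1 := by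
      ext x
      exact Subsingleton.elim _ _
    rw [this]
    exact (Br 0).one_mem
  have hnb : ∀ i : Fin M, Art.Nb (w i.castSucc) (p i.castSucc) (w i.succ) (p i.succ) := by
    intro i
    refine ⟨fun h => hA ⟨i.castSucc, i.succ, by simp, h⟩, fun h => hB ⟨i.castSucc, i.succ, by simp, h⟩⟩
  have hok := ok_ofFn M (fun i => (w i, p i)) hnb h0
  have hfin := Art.red_case (List.ofFn fun i : Fin M => (w i.succ, p i.succ)) (w 0) (p 0)
    (List.ofFn fun i : Fin (M + 1) => i) (by simp) (h0 0) hok (by
      rw [List.map_ofFn, List.map_ofFn]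
      have h1 : (List.ofFn ((fun a => FreeGroup.of a) ∘ fun i : Fin (M + 1) => i)).prod =
          (List.ofFn fun k : Fin (M + 1) => (FreeGroup.of k : FF (M + 1))).prod := rfl
      rw [h1, ← hx, map_list_prod, List.map_ofFn, List.ofFn_succ, List.prod_cons]
      congr 1
      · exact (hf 0).symm
      · congr 2
        funext k
        exact (hf k.succ).symm)
  have h3 : (List.ofFn fun i : Fin (M + 1) => (w i, p i)) =
      List.ofFn fun i : Fin (M + 1) => ((1 : FF (M + 1)), i) := by
    rw [List.ofFn_succ, hfin, List.map_ofFn]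
    rfl
  have h4 := List.ofFn_injective h3
  have h5 : f = 1 := by
    have : (f : MulAut (FF (M + 1))).toMonoidHom = MonoidHom.id _ := by
      apply FreeGroup.ext_hom
      intro j
      have h6 := congrFun h4 j
      simp only [Prod.mk.injEq] at h6
      change f (FreeGroup.of j) = FreeGroup.of j
      rw [hf j, h6.1, h6.2]
      simp
    ext x
    exact DFunLike.congr_fun this x
  rw [h5]
  exact (Br _).one_mem

/-- (ARTIN) -- Artin's theorem. -/
theorem artin (f : MulAut (FF N)) (hf : ∀ j : Fin N, ∃ (k : Fin N) (w : FF N),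
    f (FreeGroup.of j) = w * FreeGroup.of k * w⁻¹) (hx : f (xn N) = xn N) : f ∈ Br N := by
  choose p w hw using hf
  refine artin_aux _ f w p hw ?_ rfl
  unfold xn at hx
  rw [map_inv] at hx
  exact inv_injective hx

end Pool.MP_59b15d_al.Sym
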