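import Mathlib
import Pool.Agent.H.MP_59b15d_al.sym.Defs

set_option autoImplicit false

namespace Pool.MP_59b15d_al.Sym

section general

variable {G X ι : Type*} [Group G] [MulAction G X] [Fintype ι]

/-- The functions of the form `∑ (ψ_i - ψ_i ∘ g_i)`. -/
def coB (M : Type*) [AddCommGroup M] (X : Type*) [MulAction G X] (g : ι → G) :
    AddSubgroup (X → M) where
  carrier := {κ | ∃ ψ : ι → X → M, ∀ x, κ x = ∑ i, (ψ i x - ψ i (g i • x))}
  add_mem' := by
    rintro a b ⟨ψ, hψ⟩ ⟨ψ', hψ'⟩
    refine ⟨fun i x => ψ i x + ψ' i x, fun x => ?_⟩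
    rw [Pi.add_apply, hψ, hψ', ← Finset.sum_add_distrib]
    exact Finset.sum_congr rfl fun i _ => by rw [add_sub_add_comm]
  zero_mem' := ⟨fun _ _ => 0, fun x => by simp⟩
  neg_mem' := by
    rintro a ⟨ψ, hψ⟩
    refine ⟨fun i x => - ψ i x, fun x => ?_⟩
    rw [Pi.neg_apply, hψ, ← Finset.sum_neg_distrib]
    exact Finset.sum_congr rfl fun i _ => by rw [neg_sub, neg_sub_neg]

theorem coB_mem {M : Type*} [AddCommGroup M] (g : ι → G) (hg : Subgroup.closure (Set.range g) = ⊤)
    (h : G) : ∀ ψ : X → M, (fun x => ψ x - ψ (h • x)) ∈ coB M X g := by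
  classical
  have h1 : h ∈ Subgroup.closure (Set.range g) := by rw [hg]; trivial
  induction h1 using Subgroup.closure_induction with
  | mem h hh =>
    obtain ⟨i, rfl⟩ := hh
    intro ψ
    refine ⟨fun j => if j = i then ψ else 0, fun x => ?_⟩
    rw [Finset.sum_eq_single i]
    · simp
    · intro j _ hj
      simp [hj]
    · intro h
      exact absurd (Finset.mem_univ i) h
  | one =>
    intro ψ
    have : (fun x => ψ x - ψ ((1 : G) • x)) = 0 := by
      funext x
      simp
    rw [this]
    exact AddSubgroup.zero_mem _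
  | mul u v _ _ hu hv =>
    intro ψ
    have : (fun x => ψ x - ψ ((u * v) • x)) =
        (fun x => ψ x - ψ (u • x)) + fun x => ψ (u • x) - ψ (u • (v • x)) := by
      funext x
      simp [mul_smul]
    rw [this]
    exact AddSubgroup.add_mem _ (hu ψ) (hv fun x => ψ (u • x))
  | inv u _ hu =>
    intro ψ
    have h2 := AddSubgroup.neg_mem _ (hu fun x => ψ (u⁻¹ • x))
    have : (fun x => ψ x - ψ (u⁻¹ • x)) = -(fun x => ψ (u⁻¹ • x) - ψ (u⁻¹ • (u • x))) := by
      funext x
      simp
    rw [this]
    exact h2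

theorem coB_full [Finite X] {M : Type*} [AddCommGroup M] (g : ι → G)
    (hg : Subgroup.closure (Set.range g) = ⊤) (κ : X → M)
    (hκ : ∀ x : X, ∑ᶠ y ∈ MulAction.orbit G x, κ y = 0) : κ ∈ coB M X g := by
  classical
  have := Fintype.ofFinite X
  let r : X → X := fun x => (Quotient.mk (MulAction.orbitRel G X) x).out
  have hr : ∀ x, r x ∈ MulAction.orbit G x := fun x =>
    MulAction.orbitRel_apply.mp (Quotient.exact (Quotient.out_eq (Quotient.mk (MulAction.orbitRel G X) x)))
  have hr2 : ∀ x y, y ∈ MulAction.orbit G x → r y = r x := by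
    intro x y hy
    change (Quotient.mk (MulAction.orbitRel G X) y).out = (Quotient.mk (MulAction.orbitRel G X) x).out
    rw [Quotient.sound (s := MulAction.orbitRel G X) (MulAction.orbitRel_apply.mpr hy)]
  -- the difference with the function on the representatives
  have h1 : ∀ x, (Pi.single x (κ x) - Pi.single (r x) (κ x) : X → M) ∈ coB M X g := by
    intro x
    obtain ⟨h, hh⟩ := hr x
    have h2 := coB_mem (M := M) g hg h⁻¹ (Pi.single x (κ x))
    have h3 : (fun y => (Pi.single x (κ x) : X → M) y - (Pi.single x (κ x) : X → M) (h⁻¹ • y)) =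
        Pi.single x (κ x) - Pi.single (r x) (κ x) := by
      funext y
      rw [Pi.sub_apply]
      congr 1
      by_cases hy : y = r x
      · subst hy
        rw [Pi.single_eq_same]
        have : h⁻¹ • r x = x := by
          rw [← hh]
          simp
        rw [this, Pi.single_eq_same]
      · rw [Pi.single_eq_of_ne hy, Pi.single_eq_of_ne]
        intro h4
        apply hy
        rw [← hh, ← h4]
        simp
    rw [h3] at h2
    exact h2
  have h2 : (∑ x, (Pi.single x (κ x) - Pi.single (r x) (κ x)) : X → M) ∈ coB M X g :=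
    AddSubgroup.sum_mem _ fun x _ => h1 x
  have h3 : (∑ x, (Pi.single x (κ x) : X → M)) = κ := by
    funext y
    simp
  have h4 : (∑ x, (Pi.single (r x) (κ x) : X → M)) = 0 := by
    funext y
    rw [Finset.sum_apply, Pi.zero_apply]
    by_cases hy : ∃ x, r x = y
    · obtain ⟨x, hx⟩ := hy
      have h5 := hκ x
      rw [finsum_mem_def, finsum_eq_sum_of_fintype] at h5
      rw [← h5]
      refine Finset.sum_congr rfl fun z _ => ?_
      by_cases hz : z ∈ MulAction.orbit G x
      · rw [Set.indicator_of_mem hz, hr2 x z hz, hx, Pi.single_eq_same]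
      · rw [Set.indicator_of_notMem hz, Pi.single_eq_of_ne]
        intro h6
        apply hz
        have h7 : r z ∈ MulAction.orbit G z := hr z
        rw [← h6, ← hx] at h7
        have h8 : r x ∈ MulAction.orbit G x := hr x
        rw [← MulAction.orbit_eq_iff] at h7 h8
        rw [← MulAction.orbit_eq_iff, ← h7, h8]
    · apply Finset.sum_eq_zero
      intro x _
      rw [Pi.single_eq_of_ne]
      intro h
      exact hy ⟨x, h.symm⟩
  rw [Finset.sum_sub_distrib, h3, h4, sub_zero] at h2
  exact h2

end general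

section cocycle

variable {N : ℕ} {X : Type*} [MulAction (FF N) X] {M : Type*} [AddCommGroup M]

/-- The permutation of `X × M` defined by a generator and a function on `X`. -/
def coAct (k : Fin N → X → M) (j : Fin N) : Equiv.Perm (X × M) where
  toFun p := ((FreeGroup.of j : FF N) • p.1, p.2 + k j p.1)
  invFun p := ((FreeGroup.of j : FF N)⁻¹ • p.1, p.2 - k j ((FreeGroup.of j : FF N)⁻¹ • p.1))
  left_inv := by rintro ⟨x, t⟩; simp
  right_inv := by rintro ⟨x, t⟩; simp

/-- The cocycle with given values on the generators. -/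
def coK (k : Fin N → X → M) (w : FF N) (x : X) : M :=
  (FreeGroup.lift (coAct k) w (x, 0)).2

theorem coK_spec (k : Fin N → X → M) (w : FF N) :
    ∀ (x : X) (t : M), FreeGroup.lift (coAct k) w (x, t) = (w • x, t + coK k w x) := by
  have key : ∀ w : FF N, (∀ (x : X) (t : M), FreeGroup.lift (coAct k) w (x, t) =
      (w • x, t + (FreeGroup.lift (coAct k) w (x, 0)).2)) := by
    intro w
    induction w using FreeGroup.induction_on with
    | C1 => intro x t; simp
    | of j => intro x t; simp [coAct]
    | inv_of j _ =>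
      intro x t
      rw [map_inv, FreeGroup.lift_apply_of]
      change (coAct k j).symm (x, t) = (_, t + ((coAct k j).symm (x, 0)).2)
      simp [coAct, sub_eq_add_neg]
    | mul u v hu hv =>
      intro x t
      rw [map_mul, Equiv.Perm.mul_apply, Equiv.Perm.mul_apply, hv x t, hv x 0, hu, hu _ (0 + _)]
      rw [mul_smul]
      simp [add_assoc]
  exact key w

theorem coK_mul (k : Fin N → X → M) (u v : FF N) (x : X) :
    coK k (u * v) x = coK k v x + coK k u (v • x) := by
  rw [coK, map_mul, Equiv.Perm.mul_apply, coK_spec, coK_spec, zero_add]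

theorem coK_one (k : Fin N → X → M) (x : X) : coK k 1 x = 0 := by
  simp [coK]

theorem coK_of (k : Fin N → X → M) (j : Fin N) (x : X) : coK k (FreeGroup.of j) x = k j x := by
  simp [coK, coAct]

theorem coK_pow (φ : Fin N → X → M) (k : Fin N → X → M)
    (hk : ∀ j x, k j x = φ j x - φ j ((FreeGroup.of j : FF N) • x)) (j : Fin N) (n : ℕ) (x : X) :
    coK k (FreeGroup.of j ^ n) x = φ j x - φ j ((FreeGroup.of j ^ n : FF N) • x) := by
  induction n with
  | zero => simp [coK_one]
  | succ n ih =>
    rw [pow_succ', coK_mul, ih, coK_of, hk, mul_smul]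
    simp

/-- The suffixes of the product `x_1 ⋯ x_N`. -/
def suf (N : ℕ) (i : ℕ) : FF N := (((List.finRange N).drop i).map FreeGroup.of).prod

theorem suf_zero : (suf N 0)⁻¹ = xn N := by
  rw [suf, xn, List.drop_zero, List.ofFn_eq_map]

theorem suf_last : suf N N = 1 := by
  rw [suf, List.drop_eq_nil_of_le (by simp)]
  rfl

theorem suf_succ (i : Fin N) : suf N i = FreeGroup.of i * suf N (i + 1) := by
  rw [suf, suf, List.drop_eq_getElem_cons (by simp), List.map_cons, List.prod_cons]
  simp

theorem suf_closure : Subgroup.closure (Set.range fun i : Fin N =>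
    (suf N (i + 1))⁻¹ * FreeGroup.of i * suf N (i + 1)) = ⊤ := by
  set S := Subgroup.closure (Set.range fun i : Fin N =>
    (suf N (i + 1))⁻¹ * FreeGroup.of i * suf N (i + 1)) with hS
  have h1 : ∀ i : ℕ, i ≤ N → suf N (N - i) ∈ S := by
    intro i
    induction i with
    | zero =>
      intro _
      rw [Nat.sub_zero, suf_last]
      exact S.one_mem
    | succ i ih =>
      intro hi
      have h2 := ih (by omega)
      have h3 := suf_succ (⟨N - (i + 1), by omega⟩ : Fin N)
      have h4 : N - (i + 1) + 1 = N - i := by omega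
      simp only [h4] at h3
      have h5 : (suf N (N - i))⁻¹ * FreeGroup.of (⟨N - (i + 1), by omega⟩ : Fin N) *
          suf N (N - i) ∈ S := by
        apply Subgroup.subset_closure
        refine ⟨⟨N - (i + 1), by omega⟩, ?_⟩
        simp only [h4]
      have h6 : suf N (N - (i + 1)) = suf N (N - i) * ((suf N (N - i))⁻¹ *
          FreeGroup.of (⟨N - (i + 1), by omega⟩ : Fin N) * suf N (N - i)) := by
        rw [h3]
        group
      rw [h6]
      exact S.mul_mem h2 h5
  have h2 : ∀ i : ℕ, i ≤ N → suf N i ∈ S := by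
    intro i hi
    have := h1 (N - i) (by omega)
    rwa [show N - (N - i) = i by omega] at this
  rw [eq_top_iff, ← FreeGroup.closure_range_of, Subgroup.closure_le]
  rintro _ ⟨i, rfl⟩
  have h3 := suf_succ i
  have h4 : FreeGroup.of i = suf N i * (suf N (i + 1))⁻¹ := by rw [h3]; group
  rw [SetLike.mem_coe, h4]
  exact S.mul_mem (h2 _ i.2.le) (S.inv_mem (h2 _ i.2))

/-- (COCH) -- helper2. -/
theorem coch [Finite X] (e : Fin N → ℕ)
    (he : ∀ j (x : X), (FreeGroup.of j ^ e j : FF N) • x = x) (κ : X → M)
    (hκ : ∀ x : X, ∑ᶠ y ∈ MulAction.orbit (FF N) x, κ y = 0) :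
    ∃ K : FF N → X → M, (∀ u v x, K (u * v) x = K v x + K u (v • x)) ∧
      (∀ j x, K (FreeGroup.of j ^ e j) x = 0) ∧ ∀ x, K (xn N) x = κ x := by
  -- the function for `x_1 ⋯ x_N`
  let κ' : X → M := fun x => - κ ((suf N 0) • x)
  have hκ' : ∀ x : X, ∑ᶠ y ∈ MulAction.orbit (FF N) x, κ' y = 0 := by
    intro x
    have h1 : ∑ᶠ y ∈ MulAction.orbit (FF N) x, κ' y =
        ∑ᶠ y, -(Set.indicator (MulAction.orbit (FF N) x) κ ((suf N 0) • y)) := by
      rw [finsum_mem_def]
      apply finsum_congr
      intro y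
      by_cases hy : y ∈ MulAction.orbit (FF N) x
      · rw [Set.indicator_of_mem hy, Set.indicator_of_mem]
        exact (MulAction.smul_mem_orbit_smul (suf N 0) 1 y).elim fun g hg => by
          rw [← MulAction.orbit_eq_iff] at hy ⊢
          rw [← hy, MulAction.orbit_smul]
      · rw [Set.indicator_of_notMem hy, Set.indicator_of_notMem, neg_zero]
        intro h
        apply hy
        rw [← MulAction.orbit_eq_iff] at h ⊢
        rw [← h, MulAction.orbit_smul]
    have h2 := finsum_comp_equiv (MulAction.toPerm (suf N 0) : Equiv.Perm X)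
      (f := Set.indicator (MulAction.orbit (FF N) x) κ)
    have h3 : ∑ᶠ y, (Set.indicator (MulAction.orbit (FF N) x) κ ((suf N 0) • y)) = 0 := by
      rw [← hκ x, finsum_mem_def, ← h2]
      rfl
    rw [h1, finsum_neg_distrib, h3, neg_zero]
  obtain ⟨ψ, hψ⟩ := coB_full (M := M) (X := X) _ (suf_closure (N := N)) κ' hκ'
  let φ : Fin N → X → M := fun i x => ψ i ((suf N (i + 1))⁻¹ • x)
  let k : Fin N → X → M := fun j x => φ j x - φ j ((FreeGroup.of j : FF N) • x)
  have hk : ∀ j x, k j x = φ j x - φ j ((FreeGroup.of j : FF N) • x) := fun _ _ => rfl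
  have h1 : ∀ (i : Fin N) (x : X), coK k (suf N i) x = coK k (suf N (i + 1)) x +
      (ψ i x - ψ i (((suf N (i + 1))⁻¹ * FreeGroup.of i * suf N (i + 1)) • x)) := by
    intro i x
    rw [suf_succ i, coK_mul, coK_of]
    simp [k, φ, mul_smul]
  have h2 : ∀ x, coK k (suf N 0) x = κ' x := by
    intro x
    rw [hψ, Finset.sum_fin_eq_sum_range]
    have h3 : ∀ n ≤ N, coK k (suf N 0) x = coK k (suf N n) x + ∑ i ∈ Finset.range n,
        (if h : i < N then (ψ ⟨i, h⟩ x - ψ ⟨i, h⟩ (((suf N (i + 1))⁻¹ *
          FreeGroup.of (⟨i, h⟩ : Fin N) * suf N (i + 1)) • x)) else 0) := by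
      intro n
      induction n with
      | zero => intro _; simp
      | succ n ih =>
        intro hn
        rw [ih (by omega), Finset.sum_range_succ, dif_pos (show n < N by omega),
          h1 ⟨n, by omega⟩ x]
        simp only
        abel
    rw [h3 N le_rfl, suf_last, coK_one, zero_add]
  refine ⟨coK k, coK_mul k, fun j x => ?_, fun x => ?_⟩
  · rw [coK_pow φ k hk, he, sub_self]
  · have h3 := coK_mul k (suf N 0) (suf N 0)⁻¹ x
    rw [mul_inv_cancel, coK_one, h2, suf_zero] at h3
    have h4 : suf N 0 • (xn N • x) = x := by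
      rw [← suf_zero, smul_inv_smul]
    simp only [κ', h4] at h3
    rw [← sub_eq_zero, sub_eq_add_neg]
    exact h3.symm

end cocycle

end Pool.MP_59b15d_al.Sym
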