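import Mathlib

set_option autoImplicit false

namespace Pool.MP_59b15d_al.Sym

section mats

open Matrix

variable {K : Type*} [Field K]

/-- The companion matrix with eigenvalues `α, β`. -/
def cmp2 (α β : K) : Matrix (Fin 2) (Fin 2) K := !![0, -(α * β); 1, α + β]

theorem cmp2_vec (α β : K) (k : ℕ) :
    ![1, α] ᵥ* (cmp2 α β) ^ k = α ^ k • ![1, α] := by
  induction k with
  | zero => simp
  | succ k ih =>
    rw [pow_succ', ← vecMul_vecMul]
    have h1 : ![1, α] ᵥ* cmp2 α β = α • ![1, α] := by
      funext i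
      fin_cases i
      · simp [cmp2, vecMul, dotProduct, Fin.sum_univ_two]
      · simp [cmp2, vecMul, dotProduct, Fin.sum_univ_two]
        ring
    rw [h1, smul_vecMul, ih, smul_smul, pow_succ']

theorem cmp2_comm (α β : K) : cmp2 α β = cmp2 β α := by
  rw [cmp2, cmp2, mul_comm, add_comm]

theorem cmp2_pow_eq_one {α β : K} (hab : α ≠ β) (k : ℕ) :
    (cmp2 α β) ^ k = 1 ↔ α ^ k = 1 ∧ β ^ k = 1 := by
  have h1 := cmp2_vec α β k
  have h2 := cmp2_vec β α k
  rw [cmp2_comm β α] at h2
  constructor
  · intro h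
    rw [h, vecMul_one] at h1 h2
    constructor
    · have := congrFun h1 0
      simpa using this.symm
    · have := congrFun h2 0
      simpa using this.symm
  · rintro ⟨ha, hb⟩
    rw [ha, one_smul] at h1
    rw [hb, one_smul] at h2
    set A := (cmp2 α β) ^ k with hA
    have e1 := congrFun h1 0
    have e2 := congrFun h1 1
    have e3 := congrFun h2 0
    have e4 := congrFun h2 1
    simp only [vecMul, dotProduct, Fin.sum_univ_two, cons_val_zero, cons_val_one, one_mul] at e1 e2 e3 e4
    have hne : α - β ≠ 0 := sub_ne_zero.mpr hab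
    have f1 : A 1 0 = 0 := by
      have : (α - β) * A 1 0 = 0 := by linear_combination e1 - e3
      exact (mul_eq_zero.mp this).resolve_left hne
    have f2 : A 1 1 = 1 := by
      have : (α - β) * (A 1 1 - 1) = 0 := by linear_combination e2 - e4
      exact sub_eq_zero.mp ((mul_eq_zero.mp this).resolve_left hne)
    have f3 : A 0 0 = 1 := by
      rw [f1] at e1
      linear_combination e1
    have f4 : A 0 1 = 0 := by
      rw [f2] at e2
      linear_combination e2
    ext i j
    fin_cases i <;> fin_cases j <;> simp [f1, f2, f3, f4]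

/-- An upper triangular matrix with eigenvalues `1, μ`. -/
def tri2 (z μ : K) : Matrix (Fin 2) (Fin 2) K := !![1, z; 0, μ]

theorem tri2_pow (z μ : K) (k : ℕ) :
    (tri2 z μ) ^ k = tri2 (z * ∑ i ∈ Finset.range k, μ ^ i) (μ ^ k) := by
  induction k with
  | zero =>
    ext i j
    fin_cases i <;> fin_cases j <;> simp [tri2]
  | succ k ih =>
    rw [pow_succ', ih, Finset.sum_range_succ]
    ext i j
    fin_cases i <;> fin_cases j <;> simp [tri2, Matrix.mul_apply, Fin.sum_univ_two, pow_succ']
    ring_nf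

theorem tri2_pow_eq_one {z μ : K} (hμ : μ ≠ 1) (k : ℕ) : (tri2 z μ) ^ k = 1 ↔ μ ^ k = 1 := by
  rw [tri2_pow]
  constructor
  · intro h
    have := congrFun (congrFun h 1) 1
    simpa [tri2] using this
  · intro h
    have h1 : ∑ i ∈ Finset.range k, μ ^ i = 0 := by
      have h2 := geom_sum_mul μ k
      rw [h, sub_self] at h2
      exact (mul_eq_zero.mp h2).resolve_right (sub_ne_zero.mpr hμ)
    rw [h1, h, mul_zero]
    ext i j
    fin_cases i <;> fin_cases j <;> simp [tri2]

/-- Matrices of given orders whose product is a companion matrix. -/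
theorem exists_mats {r : ℕ} (μ : Fin (r + 2) → K) (hμ : ∀ j, μ j ≠ 1) (hμ0 : ∀ j, μ j ≠ 0) (α β : K)
    (hab : α * β = ∏ j, μ j) :
    ∃ s : Fin (r + 2) → Matrix (Fin 2) (Fin 2) K, (∀ j (k : ℕ), s j ^ k = 1 ↔ μ j ^ k = 1) ∧
      (List.ofFn s).prod = cmp2 α β := by
  let P : K := ∏ j : Fin r, μ j.succ.succ
  have hP : P ≠ 0 := Finset.prod_ne_zero_iff.mpr fun j _ => hμ0 _
  let z : K := (α + β) / P - (1 + μ 0) * μ 1
  refine ⟨Fin.cons (cmp2 1 (μ 0)) (Fin.cons (tri2 z (μ 1)) fun j => tri2 0 (μ j.succ.succ)), ?_, ?_⟩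
  · intro j
    refine Fin.cases ?_ (fun j => Fin.cases ?_ (fun j => ?_) j) j
    · intro k
      rw [Fin.cons_zero, cmp2_pow_eq_one (hμ 0).symm]
      simp
    · intro k
      rw [Fin.cons_succ, Fin.cons_zero, tri2_pow_eq_one (hμ _)]
      rfl
    · intro k
      rw [Fin.cons_succ, Fin.cons_succ, tri2_pow_eq_one (hμ _)]
  · rw [List.ofFn_succ, List.prod_cons, List.ofFn_succ, List.prod_cons]
    simp only [Fin.cons_zero, Fin.cons_succ]
    have h1 : ∀ (n : ℕ) (ν : Fin n → K), (List.ofFn fun j => tri2 0 (ν j)).prod =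
        tri2 0 (∏ j, ν j) := by
      intro n
      induction n with
      | zero =>
        intro ν
        ext i j
        fin_cases i <;> fin_cases j <;> simp [tri2]
      | succ n ih =>
        intro ν
        rw [List.ofFn_succ, List.prod_cons, ih, Fin.prod_univ_succ]
        ext i j
        fin_cases i <;> fin_cases j <;> simp [tri2, Matrix.mul_apply, Fin.sum_univ_two]
    have h2 : (∏ j : Fin r, μ j.succ.succ) = P := rfl
    have h4 : α * β = μ 0 * (μ 1 * P) := by
      rw [hab, Fin.prod_univ_succ, Fin.prod_univ_succ]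
      rfl
    rw [h1, h2]
    have h3 : (z + (1 + μ 0) * μ 1) * P = α + β := by
      simp only [z]
      field_simp
      ring
    ext i j
    fin_cases i <;> fin_cases j <;> simp [tri2, cmp2, Matrix.mul_apply, Fin.sum_univ_two]
    · linear_combination -h4
    · linear_combination h3

end mats

section conj

variable {G : Type*} [Group G] [Finite G]

/-- The left multiplications by two elements of the same order are conjugate permutations. -/
theorem exists_conj (w w' : G) (h : orderOf w = orderOf w') :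
    ∃ τ : Equiv.Perm G, ∀ x, τ (w' * x) = w * τ x := by
  classical
  -- right multiplication first
  have hc : Nat.card (G ⧸ Subgroup.zpowers w') = Nat.card (G ⧸ Subgroup.zpowers w) := by
    have h1 := Subgroup.card_eq_card_quotient_mul_card_subgroup (Subgroup.zpowers w')
    have h2 := Subgroup.card_eq_card_quotient_mul_card_subgroup (Subgroup.zpowers w)
    rw [h1, Nat.card_zpowers, Nat.card_zpowers, h] at h2
    exact Nat.eq_of_mul_eq_mul_right (orderOf_pos w') h2
  let e : (G ⧸ Subgroup.zpowers w') ≃ (G ⧸ Subgroup.zpowers w) := (Finite.card_eq.mp hc).some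
  have hk : ∀ g : G, ∃ k : ℤ, g = (QuotientGroup.mk g : G ⧸ Subgroup.zpowers w').out * w' ^ k := by
    intro g
    have h1 : (QuotientGroup.mk (QuotientGroup.mk g : G ⧸ Subgroup.zpowers w').out :
        G ⧸ Subgroup.zpowers w') = QuotientGroup.mk g := Quotient.out_eq _
    rw [QuotientGroup.eq] at h1
    obtain ⟨k, hk⟩ := h1
    exact ⟨k, by rw [show w' ^ k = _ from hk]; group⟩
  choose k hk using hk
  have hz : ∀ a b : ℤ, w' ^ a = w' ^ b ↔ w ^ a = w ^ b := by
    intro a b
    rw [← orderOf_dvd_sub_iff_zpow_eq_zpow, ← orderOf_dvd_sub_iff_zpow_eq_zpow, h]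
  let σ : G → G := fun g => (e (QuotientGroup.mk g)).out * w ^ k g
  have hmk : ∀ g, (QuotientGroup.mk (σ g) : G ⧸ Subgroup.zpowers w) = e (QuotientGroup.mk g) := by
    intro g
    have h1 : (QuotientGroup.mk (e (QuotientGroup.mk g)).out : G ⧸ Subgroup.zpowers w) =
        e (QuotientGroup.mk g) := Quotient.out_eq _
    rw [← h1, QuotientGroup.eq]
    refine ⟨- k g, ?_⟩
    simp only [σ]
    group
  have hσ : ∀ g, σ (g * w') = σ g * w := by
    intro g
    have h1 : (QuotientGroup.mk (g * w') : G ⧸ Subgroup.zpowers w') = QuotientGroup.mk g := by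
      rw [QuotientGroup.eq]
      exact ⟨-1, by simp⟩
    have h2 : w' ^ k (g * w') = w' ^ (k g + 1) := by
      have h3 := hk (g * w')
      rw [h1] at h3
      nth_rewrite 1 [hk g] at h3
      rw [mul_assoc] at h3
      have h4 := mul_left_cancel h3
      rw [← h4, zpow_add_one]
    rw [hz] at h2
    simp only [σ]
    rw [h1, h2, zpow_add_one, mul_assoc]
  have hinj : Function.Injective σ := by
    intro g g' hgg
    have h1 : (QuotientGroup.mk g : G ⧸ Subgroup.zpowers w') = QuotientGroup.mk g' := by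
      apply e.injective
      rw [← hmk, ← hmk, hgg]
    have h2 : w ^ k g = w ^ k g' := by
      simp only [σ] at hgg
      rw [h1] at hgg
      exact mul_left_cancel hgg
    rw [← hz] at h2
    rw [hk g, hk g', h1, h2]
  let σ' : Equiv.Perm G := Equiv.ofBijective σ (Finite.injective_iff_bijective.mp hinj)
  refine ⟨(Equiv.inv G).trans (σ'.trans (Equiv.inv G)), fun x => ?_⟩
  change (σ (w' * x)⁻¹)⁻¹ = w * (σ x⁻¹)⁻¹
  have h1 := hσ (w' * x)⁻¹
  rw [mul_inv_rev, inv_mul_cancel_right] at h1
  rw [h1, mul_inv_rev w' x]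
  generalize σ (x⁻¹ * w'⁻¹) = y
  group

end conj

end Pool.MP_59b15d_al.Sym
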