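import Mathlib
import Pool.Agent.H.MP_59b15d_al.sym.Defs
import Pool.Agent.H.MP_59b15d_al.sym.Pm1

set_option autoImplicit false

namespace Pool.MP_59b15d_al.Sym

/-- Elements of given orders in a finite group whose product has a given order. -/
theorem exists_elts (q : ℕ) [Fact q.Prime] (L : ℕ) (hL : L ∣ q - 1) {r : ℕ} (e : Fin (r + 2) → ℕ)
    (he : ∀ j, 2 ≤ e j) (hd : ∀ j, e j ∣ L) (h2 : 2 * ∏ j, e j < L) (hp : ∏ j, e j ∣ L) :
    ∃ s : Fin (r + 2) → (Matrix (Fin 2) (Fin 2) (ZMod q))ˣ, (∀ j, orderOf (s j) = e j) ∧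
      orderOf (List.ofFn s).prod = L := by
  have hq : 0 < q - 1 := Nat.sub_pos_of_lt (Fact.out (p := q.Prime)).one_lt
  have hL0 : 0 < L := Nat.pos_of_dvd_of_pos hL hq
  obtain ⟨ζ, hζ⟩ := IsCyclic.exists_ofOrder_eq_natCard (α := (ZMod q)ˣ)
  have hc : Nat.card (ZMod q)ˣ = q - 1 := by
    rw [Nat.card_eq_fintype_card, ZMod.card_units_eq_totient, Nat.totient_prime Fact.out]
  rw [hc] at hζ
  have hroot : ∀ d : ℕ, d ∣ q - 1 → ∃ u : (ZMod q)ˣ, orderOf u = d := by
    rintro d ⟨c, hc⟩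
    have hc0 : c ≠ 0 := by rintro rfl; omega
    refine ⟨ζ ^ c, ?_⟩
    rw [orderOf_pow_of_dvd hc0 (by rw [hζ, hc]; exact Dvd.intro_left _ rfl), hζ, hc,
      Nat.mul_div_cancel _ (Nat.pos_of_ne_zero hc0)]
  have h1 : ∀ j, ∃ u : (ZMod q)ˣ, orderOf u = e j := fun j => hroot _ ((hd j).trans hL)
  choose μ hμ using h1
  obtain ⟨ν, hν⟩ := hroot L hL
  let D : (ZMod q)ˣ := ∏ j, μ j
  have hD : D ^ (∏ j, e j) = 1 := by
    rw [← Finset.prod_pow]
    refine Finset.prod_eq_one fun j _ => ?_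
    rw [← orderOf_dvd_iff_pow_eq_one, hμ]
    exact Finset.dvd_prod_of_mem _ (Finset.mem_univ j)
  have hDL : D ^ L = 1 := by
    obtain ⟨c, hc⟩ := hp
    rw [hc, pow_mul, hD, one_pow]
  have hνL : ν ^ L = 1 := by rw [← hν]; exact pow_orderOf_eq_one ν
  let β : (ZMod q)ˣ := D * ν⁻¹
  have hne : ν ≠ β := by
    intro h
    have h3 : ν * ν = D := by
      nth_rewrite 1 [h]
      simp [β]
    have h4 : ν ^ (2 * ∏ j, e j) = 1 := by
      rw [pow_mul, pow_two, h3, hD]
    rw [← orderOf_dvd_iff_pow_eq_one, hν] at h4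
    have h5 : 0 < 2 * ∏ j, e j := by
      have : 0 < ∏ j, e j := Finset.prod_pos fun j _ => by have := he j; omega
      omega
    exact absurd (Nat.le_of_dvd h5 h4) (by omega)
  obtain ⟨s, hs, hsp⟩ := exists_mats (K := ZMod q) (fun j => ((μ j : (ZMod q)ˣ) : ZMod q))
    (fun j h => by
      have h3 : μ j = 1 := Units.ext h
      have h4 := hμ j
      rw [h3, orderOf_one] at h4
      have := he j
      omega)
    (fun j => (μ j).ne_zero) (ν : ZMod q) (β : ZMod q) (by
      rw [← Units.val_mul, show ν * β = D by simp [β, mul_comm D, mul_inv_cancel_left]]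
      simp [D])
  have hord : ∀ j, orderOf (s j) = e j := by
    intro j
    rw [← hμ j, ← orderOf_units, orderOf_eq_orderOf_iff]
    intro k
    exact hs j k
  have hpos : ∀ j, s j ^ e j = 1 := fun j => by rw [← hord j]; exact pow_orderOf_eq_one _
  let u : Fin (r + 2) → (Matrix (Fin 2) (Fin 2) (ZMod q))ˣ := fun j =>
    Units.ofPowEqOne (s j) (e j) (hpos j) (by have := he j; omega)
  have hu : ∀ j, ((u j : (Matrix (Fin 2) (Fin 2) (ZMod q))ˣ) : Matrix (Fin 2) (Fin 2) (ZMod q)) =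
      s j := fun j => rfl
  refine ⟨u, fun j => ?_, ?_⟩
  · rw [← orderOf_units, hu, hord]
  · rw [← orderOf_units]
    have h3 : (((List.ofFn u).prod : (Matrix (Fin 2) (Fin 2) (ZMod q))ˣ) :
        Matrix (Fin 2) (Fin 2) (ZMod q)) = cmp2 (ν : ZMod q) (β : ZMod q) := by
      rw [← hsp]
      have := map_list_prod (Units.coeHom (Matrix (Fin 2) (Fin 2) (ZMod q))) (List.ofFn u)
      rw [List.map_ofFn] at this
      exact this
    rw [h3, ← hν, ← orderOf_units, orderOf_eq_orderOf_iff]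
    intro k
    rw [cmp2_pow_eq_one (fun h => hne (Units.ext h))]
    constructor
    · exact fun h => h.1
    · intro h
      refine ⟨h, ?_⟩
      have h4 : ν ^ k = 1 := Units.ext (by simpa using h)
      have h5 : L ∣ k := by rw [← hν]; exact orderOf_dvd_of_pow_eq_one h4
      obtain ⟨c, rfl⟩ := h5
      have h6 : β ^ (L * c) = 1 := by
        rw [pow_mul, mul_pow, inv_pow, hDL, hνL]
        simp
      have := congrArg (fun x : (ZMod q)ˣ => (x : ZMod q)) h6
      simpa using this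

/-- (PERM, BIG) -- helper2. -/
theorem big_aux {r : ℕ} (e : Fin (r + 2 + 2) → ℕ) (he : ∀ j, 2 ≤ e j) (M : ℕ) (hM : 0 < M) :
    ∃ U : Subgroup (FF (r + 2 + 2)), U.Normal ∧ U.FiniteIndex ∧ (∀ j, FreeGroup.of j ^ e j ∈ U) ∧
      xn (r + 2 + 2) ∈ U ∧ (∀ j (k : ℕ), FreeGroup.of j ^ k ∈ U → e j ∣ k) ∧ M ∣ U.index := by
  let L : ℕ := 4 * M * ∏ j, e j
  have hP : 0 < ∏ j, e j := Finset.prod_pos fun j _ => by have := he j; omega
  have hL0 : L ≠ 0 := by positivity
  obtain ⟨q, hq, -, hq1⟩ := Nat.exists_prime_gt_modEq_one 1 hL0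
  have hqf : Fact q.Prime := ⟨hq⟩
  have hqL : L ∣ q - 1 := (Nat.modEq_iff_dvd' hq.one_lt.le).mp hq1.symm
  have hdL : ∀ j, e j ∣ L := fun j => (Finset.dvd_prod_of_mem e (Finset.mem_univ j)).trans
    (Dvd.intro_left _ rfl)
  have hprod : ∏ j, e j = e 0 * (e 1 * ∏ j : Fin (r + 2), e j.succ.succ) := by
    rw [Fin.prod_univ_succ, Fin.prod_univ_succ]
    rfl
  have hQ : 0 < ∏ j : Fin (r + 2), e j.succ.succ :=
    Finset.prod_pos fun j _ => by have := he j.succ.succ; omega
  have he0 : 0 < e 0 := by have := he 0; omega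
  have he1 : 0 < e 1 := by have := he 1; omega
  obtain ⟨s, hs, hsp⟩ := exists_elts q L hqL (r := 0) ![e 0, e 1]
    (by intro j; fin_cases j <;> simp [he])
    (by intro j; fin_cases j <;> simp [hdL])
    (by
      rw [Fin.prod_univ_two]
      simp only [Matrix.cons_val_zero, Matrix.cons_val_one, L, hprod]
      have h1 : e 0 * e 1 ≤ M * (e 0 * (e 1 * ∏ j : Fin (r + 2), e j.succ.succ)) := by
        calc e 0 * e 1 = 1 * (e 0 * (e 1 * 1)) := by ring
          _ ≤ _ := by gcongr <;> omega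
      have h2 : 0 < e 0 * e 1 := by positivity
      calc 2 * (e 0 * e 1) < 4 * (e 0 * e 1) := by omega
        _ ≤ 4 * (M * (e 0 * (e 1 * ∏ j : Fin (r + 2), e j.succ.succ))) := by gcongr
        _ = _ := by ring)
    (by
      rw [Fin.prod_univ_two]
      simp only [Matrix.cons_val_zero, Matrix.cons_val_one, L, hprod]
      exact ⟨4 * M * ∏ j : Fin (r + 2), e j.succ.succ, by ring⟩)
  obtain ⟨t, ht, htp⟩ := exists_elts q L hqL (fun j : Fin (r + 2) => e j.succ.succ)
    (fun j => he _) (fun j => hdL _)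
    (by
      simp only [L, hprod]
      have h1 : ∏ j : Fin (r + 2), e j.succ.succ ≤
          M * (e 0 * (e 1 * ∏ j : Fin (r + 2), e j.succ.succ)) := by
        calc ∏ j : Fin (r + 2), e j.succ.succ = 1 * (1 * (1 * ∏ j : Fin (r + 2), e j.succ.succ)) := by
              ring
          _ ≤ _ := by gcongr <;> omega
      calc 2 * (∏ j : Fin (r + 2), e j.succ.succ) < 4 * (∏ j : Fin (r + 2), e j.succ.succ) := by
            omega
        _ ≤ 4 * (M * (e 0 * (e 1 * ∏ j : Fin (r + 2), e j.succ.succ))) := by gcongr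
        _ = _ := by ring)
    (by
      simp only [L, hprod]
      exact ⟨4 * M * (e 0 * e 1), by ring⟩)
  -- conjugating permutation
  let G : Type := (Matrix (Fin 2) (Fin 2) (ZMod q))ˣ
  obtain ⟨τ, hτ⟩ := exists_conj (List.ofFn s).prod⁻¹ (List.ofFn t).prod
    (by rw [orderOf_inv, hsp, htp])
  let lam : G →* Equiv.Perm G := MulAction.toPermHom G G
  have hlam : Function.Injective lam := MulAction.toPerm_injective
  let cτ : Equiv.Perm G ≃* Equiv.Perm G := MulAut.conj τ
  let σ : FF (r + 2 + 2) →* Equiv.Perm G := FreeGroup.lift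
    (Fin.cons (lam (s 0)) (Fin.cons (lam (s 1)) fun j => cτ (lam (t j))))
  have hσ0 : σ (FreeGroup.of 0) = lam (s 0) := by simp [σ]
  have hσ1 : σ (FreeGroup.of 1) = lam (s 1) := by
    have : (1 : Fin (r + 2 + 2)) = Fin.succ 0 := rfl
    rw [this]
    simp [σ]
  have hσ2 : ∀ j : Fin (r + 2), σ (FreeGroup.of j.succ.succ) = cτ (lam (t j)) := by
    intro j
    simp [σ]
  have hord : ∀ j, orderOf (σ (FreeGroup.of j)) = e j := by
    intro j
    refine Fin.cases ?_ (fun j => Fin.cases ?_ (fun j => ?_) j) j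
    · rw [hσ0, orderOf_injective lam hlam, hs]
      rfl
    · change orderOf (σ (FreeGroup.of 1)) = e 1
      rw [hσ1, orderOf_injective lam hlam, hs]
      rfl
    · have h6 := orderOf_injective cτ.toMonoidHom cτ.injective (lam (t j))
      rw [hσ2, show orderOf (cτ (lam (t j))) = _ from h6, orderOf_injective lam hlam, ht]
  have hx : σ (xn (r + 2 + 2)) = 1 := by
    rw [xn, map_inv, inv_eq_one, map_list_prod, List.map_ofFn, List.ofFn_succ, List.prod_cons,
      List.ofFn_succ, List.prod_cons]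
    have h1 : (List.ofFn fun j : Fin (r + 2) => (σ ∘ fun j : Fin (r + 2 + 2) => FreeGroup.of j)
        j.succ.succ).prod = cτ (lam (List.ofFn t).prod) := by
      rw [map_list_prod, map_list_prod, List.map_ofFn, List.map_ofFn]
      congr 1
    rw [h1]
    have h2 : (List.ofFn s).prod = s 0 * s 1 := by
      rw [List.ofFn_succ, List.prod_cons, List.ofFn_succ, List.prod_cons]
      simp
    have h3 : cτ (lam (List.ofFn t).prod) = lam (List.ofFn s).prod⁻¹ := by
      ext1 x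
      change τ (((List.ofFn t).prod) * (τ.symm x)) = (List.ofFn s).prod⁻¹ * x
      rw [hτ, Equiv.apply_symm_apply]
    rw [h3, h2]
    change σ (FreeGroup.of 0) * (σ (FreeGroup.of 1) * _) = 1
    rw [hσ0, hσ1, ← map_mul, ← map_mul, ← mul_assoc, mul_inv_cancel, map_one]
  have hLr : L ∣ σ.ker.index := by
    rw [Subgroup.index_ker]
    have h4 : σ (FreeGroup.of 0 * FreeGroup.of 1) = lam (List.ofFn s).prod := by
      rw [map_mul, hσ0, hσ1, ← map_mul, List.ofFn_succ, List.prod_cons, List.ofFn_succ,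
        List.prod_cons]
      simp
    have h5 : orderOf (⟨σ (FreeGroup.of 0 * FreeGroup.of 1), ⟨_, rfl⟩⟩ : σ.range) = L := by
      rw [← orderOf_injective σ.range.subtype σ.range.subtype_injective]
      change orderOf (σ (FreeGroup.of 0 * FreeGroup.of 1)) = L
      rw [h4, orderOf_injective lam hlam, hsp]
    rw [← h5]
    exact orderOf_dvd_natCard _
  refine ⟨σ.ker, inferInstance, inferInstance, fun j => ?_, hx, fun j k hk => ?_, ?_⟩
  · rw [MonoidHom.mem_ker, map_pow, ← hord j, pow_orderOf_eq_one]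
  · rw [MonoidHom.mem_ker, map_pow] at hk
    rw [← hord j]
    exact orderOf_dvd_of_pow_eq_one hk
  · refine Dvd.dvd.trans ?_ hLr
    exact ⟨4 * ∏ j, e j, by simp only [L]; ring⟩

/-- (PERM, BIG) -- helper2. -/
theorem big {N : ℕ} (hN : 4 ≤ N) (e : Fin N → ℕ) (he : ∀ j, 2 ≤ e j) (M : ℕ) (hM : 0 < M) :
    ∃ U : Subgroup (FF N), U.Normal ∧ U.FiniteIndex ∧ (∀ j, FreeGroup.of j ^ e j ∈ U) ∧ xn N ∈ U ∧
      (∀ j (k : ℕ), FreeGroup.of j ^ k ∈ U → e j ∣ k) ∧ M ∣ U.index := by
  obtain ⟨r, rfl⟩ : ∃ r, N = r + 2 + 2 := ⟨N - 4, by omega⟩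
  exact big_aux e he M hM

end Pool.MP_59b15d_al.Sym
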