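import Mathlib
import Pool.Agent.H.MP_59b15d_al.sym.Coch
import Pool.Agent.H.MP_59b15d_al.sym.Perm

set_option autoImplicit false

namespace Pool.MP_59b15d_al.Sym

section coHom

variable {G X M : Type*} [Group G] [MulAction G X] [AddCommGroup M]

theorem co_one {K : G → X → M} (hK : ∀ u v x, K (u * v) x = K v x + K u (v • x)) (x : X) :
    K 1 x = 0 := by
  have h1 := hK 1 1 x
  rw [one_mul, one_smul] at h1
  exact left_eq_add.mp h1

theorem co_inv {K : G → X → M} (hK : ∀ u v x, K (u * v) x = K v x + K u (v • x)) (u : G) (x : X) :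
    K u⁻¹ x = - K u (u⁻¹ • x) := by
  have h1 := hK u u⁻¹ x
  rw [mul_inv_cancel, co_one hK] at h1
  exact eq_neg_of_add_eq_zero_left h1.symm

/-- The action on `X × M` defined by a cocycle. -/
def coHom (K : G → X → M) (hK : ∀ u v x, K (u * v) x = K v x + K u (v • x)) :
    G →* Equiv.Perm (X × M) where
  toFun u :=
    { toFun := fun p => (u • p.1, p.2 + K u p.1)
      invFun := fun p => (u⁻¹ • p.1, p.2 + K u⁻¹ p.1)
      left_inv := by
        rintro ⟨x, t⟩
        simp only [inv_smul_smul, add_assoc, co_inv hK u]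
        rw [add_neg_cancel, add_zero]
      right_inv := by
        rintro ⟨x, t⟩
        simp only [smul_inv_smul, add_assoc, co_inv hK u]
        rw [neg_add_cancel, add_zero] }
  map_one' := by
    ext1 ⟨x, t⟩
    change ((1 : G) • x, t + K 1 x) = (x, t)
    rw [one_smul, co_one hK, add_zero]
  map_mul' u v := by
    ext1 ⟨x, t⟩
    change ((u * v) • x, t + K (u * v) x) = (u • (v • x), t + K v x + K u (v • x))
    rw [hK, mul_smul, add_assoc]

theorem coHom_apply {K : G → X → M} (hK : ∀ u v x, K (u * v) x = K v x + K u (v • x)) (u : G)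
    (x : X) (t : M) : coHom K hK u (x, t) = (u • x, t + K u x) := rfl

end coHom

variable {N : ℕ}

/-- Elements of a normal subgroup act trivially on the cosets. -/
theorem smul_quot {G : Type*} [Group G] (U : Subgroup G) (hU : U.Normal) {u : G} (hu : u ∈ U)
    (x : G ⧸ U) : u • x = x := by
  induction x using QuotientGroup.induction_on with
  | H z =>
    rw [MulAction.Quotient.smul_coe, QuotientGroup.eq, smul_eq_mul]
    have := hU.conj_mem _ (U.inv_mem hu) z⁻¹
    have h2 : (u * z)⁻¹ * z = z⁻¹ * u⁻¹ * z⁻¹⁻¹ := by group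
    rw [h2]
    exact this

theorem mem_of_smul_quot {G : Type*} [Group G] (U : Subgroup G) {u : G}
    (h : u • ((1 : G) : G ⧸ U) = ((1 : G) : G ⧸ U)) : u ∈ U := by
  rw [MulAction.Quotient.smul_coe, QuotientGroup.eq, smul_eq_mul] at h
  simpa using h

/-- (CTR) -- helper2.  `A' = F / K`, where `x_j` has order `e_j`, and `x_n` is central of order `m`. -/
theorem ctr (hN : 4 ≤ N) (e : Fin N → ℕ) (he : ∀ j, 2 ≤ e j) (m : ℕ) (hm : 2 ≤ m) (B : ℕ) :
    ∃ K : Subgroup (FF N), K.Normal ∧ K.FiniteIndex ∧ (∀ j, FreeGroup.of j ^ e j ∈ K) ∧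
      xn N ^ m ∈ K ∧ (∀ j (k : ℕ), FreeGroup.of j ^ k ∈ K → e j ∣ k) ∧
      (∀ k : ℕ, xn N ^ k ∈ K → m ∣ k) ∧ (∀ z, z * xn N * z⁻¹ * (xn N)⁻¹ ∈ K) ∧ B ≤ K.index := by
  obtain ⟨U, hU, hUf, hUe, hUx, hUo, hUi⟩ := big hN e he (m * (B + 1)) (by positivity)
  have hfin : Finite (FF N ⧸ U) := Subgroup.finite_quotient_of_finiteIndex
  have hmz : NeZero m := ⟨by omega⟩
  obtain ⟨K, hK, hKe, hKx⟩ := coch (X := FF N ⧸ U) (M := ZMod m) e
    (fun j x => smul_quot U hU (hUe j) x) (fun _ => 1) (by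
      intro x
      rw [MulAction.orbit_eq_univ, finsum_mem_univ]
      have := Fintype.ofFinite (FF N ⧸ U)
      rw [finsum_eq_sum_of_fintype, Finset.sum_const, Finset.card_univ, ← Nat.card_eq_fintype_card]
      change U.index • (1 : ZMod m) = 0
      obtain ⟨c, hc⟩ := hUi
      rw [hc]
      simp)
  have hp : ∀ (u : FF N) (k : ℕ), coHom K hK (u ^ k) = (coHom K hK u) ^ k := fun u k => map_pow _ _ _
  have hxn : ∀ (k : ℕ) (x : FF N ⧸ U) (t : ZMod m),
      coHom K hK (xn N ^ k) (x, t) = (x, t + k) := by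
    intro k x t
    induction k with
    | zero => simp
    | succ k ih =>
      rw [pow_succ', map_mul, Equiv.Perm.mul_apply, ih, coHom_apply, smul_quot U hU hUx, hKx]
      push_cast
      rw [add_assoc]
  have hle : (coHom K hK).ker ≤ U := by
    intro u hu
    apply mem_of_smul_quot
    have h1 : coHom K hK u (((1 : FF N) : FF N ⧸ U), 0) = (((1 : FF N) : FF N ⧸ U), 0) := by
      rw [MonoidHom.mem_ker] at hu
      rw [hu]
      rfl
    rw [coHom_apply] at h1
    exact congrArg Prod.fst h1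
  refine ⟨(coHom K hK).ker, inferInstance, inferInstance, ?_, ?_, ?_, ?_, ?_, ?_⟩
  · intro j
    rw [MonoidHom.mem_ker]
    ext1 ⟨x, t⟩
    rw [coHom_apply, hKe, smul_quot U hU (hUe j), add_zero]
    rfl
  · rw [MonoidHom.mem_ker]
    ext1 ⟨x, t⟩
    rw [hxn]
    simp
  · intro j k hk
    exact hUo j k (hle hk)
  · intro k hk
    rw [MonoidHom.mem_ker] at hk
    have h1 := hxn k ((1 : FF N) : FF N ⧸ U) 0
    rw [hk] at h1
    have h2 : (0 : ZMod m) = 0 + k := congrArg Prod.snd h1
    rw [zero_add] at h2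
    exact (ZMod.natCast_eq_zero_iff _ _).mp h2.symm
  · intro z
    have h1 : coHom K hK z * coHom K hK (xn N) = coHom K hK (xn N) * coHom K hK z := by
      ext1 ⟨x, t⟩
      rw [Equiv.Perm.mul_apply, Equiv.Perm.mul_apply, coHom_apply, coHom_apply, coHom_apply,
        coHom_apply, smul_quot U hU hUx, smul_quot U hU hUx, hKx, hKx, add_right_comm]
    rw [MonoidHom.mem_ker, map_mul, map_mul, map_mul, map_inv, map_inv, h1]
    group
  · have h1 : U.index ≤ (coHom K hK).ker.index := Subgroup.index_antitone hle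
    have h2 : m * (B + 1) ≤ U.index := Nat.le_of_dvd (Nat.pos_of_ne_zero hUf.index_ne_zero) hUi
    have h3 : B + 1 ≤ m * (B + 1) := Nat.le_mul_of_pos_left _ (by omega)
    omega

end Pool.MP_59b15d_al.Sym
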