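import Mathlib
import Pool.Agent.H.MP_59b15d_al.sym.Cn1

set_option autoImplicit false

namespace Pool.MP_59b15d_al.Sym

variable {N : ℕ}

section

variable {e : Fin N → ℕ} {m : ℕ} {D : Subgroup (FF N)} {T : Set (FF N)} {U : Subgroup (FF N)}

/-- It suffices to exclude the cosets one by one. -/
theorem cent_fin (hU : Lev e m D T U) {C : FF N} (hC : C ∈ D)
    (h : ∀ v₀ ∈ ZZ D U C hC hU.le hU.nor, v₀ ∉ WW D U C hC hU.nor →
      ∃ U' : Subgroup (FF N), Lev e m D T U' ∧ U' ≤ U ∧ ∀ v ∈ D, v * C * v⁻¹ * C⁻¹ ∈ U' →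
        ((v : FF N) : FF N ⧸ WW D U C hC hU.nor) ≠ (v₀ : FF N ⧸ WW D U C hC hU.nor)) :
    ∃ U' : Subgroup (FF N), Lev e m D T U' ∧ U' ≤ U ∧
      ∀ v ∈ D, v * C * v⁻¹ * C⁻¹ ∈ U' → ∃ a : ℤ, (C ^ a)⁻¹ * v ∈ U := by
  classical
  set W := WW D U C hC hU.nor with hW
  have hUW : U ≤ W := fun u hu => ⟨0, by simpa using hu⟩
  have hfU := hU.fin
  have hfW : W.FiniteIndex := Subgroup.finiteIndex_of_le hUW
  have hfin : Finite (FF N ⧸ W) := Subgroup.finite_quotient_of_finiteIndex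
  have hWZ : W ≤ ZZ D U C hC hU.le hU.nor := by
    rintro w ⟨a, ha⟩
    refine ⟨?_, ?_⟩
    · have h1 := D.mul_mem (D.zpow_mem hC a) (hU.le ha)
      rwa [mul_inv_cancel_left] at h1
    · have h1 : w * C * w⁻¹ * C⁻¹ = C ^ a * (((C ^ a)⁻¹ * w) *
          (C * ((C ^ a)⁻¹ * w)⁻¹ * C⁻¹)) * (C ^ a)⁻¹ := by
        have h2 : C * (C ^ a)⁻¹ = (C ^ a)⁻¹ * C := by
          rw [← zpow_neg, ← zpow_one_add, ← zpow_add_one, add_comm]
        have h3 : C ^ a * C = C * C ^ a := by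
          rw [← zpow_one_add, ← zpow_add_one, add_comm]
        have h4 : C⁻¹ * (C ^ a)⁻¹ = (C ^ a)⁻¹ * C⁻¹ := by
          rw [← mul_inv_rev, ← mul_inv_rev, h3]
        rw [mul_inv_rev, inv_inv]
        simp only [mul_assoc]
        rw [mul_inv_cancel_left, h4, mul_inv_cancel_left]
      rw [h1]
      exact hU.nor _ (D.zpow_mem hC a) _ (U.mul_mem ha (hU.nor C hC _ (U.inv_mem ha)))
  have key : ∀ x : FF N ⧸ W, ∃ U' : Subgroup (FF N), Lev e m D T U' ∧ U' ≤ U ∧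
      ∀ v ∈ D, v * C * v⁻¹ * C⁻¹ ∈ U' → ((v : FF N) : FF N ⧸ W) = x → v ∈ W := by
    intro x
    induction x using QuotientGroup.induction_on with
    | H v₀ =>
      by_cases h1 : v₀ ∈ ZZ D U C hC hU.le hU.nor ∧ v₀ ∉ W
      · obtain ⟨U', h2, h3, h4⟩ := h v₀ h1.1 h1.2
        exact ⟨U', h2, h3, fun v hv hv' h5 => absurd h5 (h4 v hv hv')⟩
      · refine ⟨U, hU, le_rfl, fun v hv hv' h5 => ?_⟩
        rw [not_and, not_not] at h1
        rw [QuotientGroup.eq] at h5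
        have h6 : v₀ ∈ ZZ D U C hC hU.le hU.nor := by
          have h7 : v ∈ ZZ D U C hC hU.le hU.nor := ⟨hv, hv'⟩
          have h8 := Subgroup.mul_mem _ h7 (hWZ h5)
          rwa [mul_inv_cancel_left] at h8
        have h9 := W.mul_mem (h1 h6) (W.inv_mem h5)
        have h10 : v₀ * (v⁻¹ * v₀)⁻¹ = v := by group
        rwa [h10] at h9
  choose V hV1 hV2 hV3 using key
  have hfV : ∀ x, (V x).FiniteIndex := fun x => (hV1 x).fin
  refine ⟨⨅ x, V x, ⟨?_, ?_, ?_, ?_, ?_⟩, ?_, ?_⟩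
  · exact (iInf_le V ((1 : FF N) : FF N ⧸ W)).trans (hV1 _).le
  · intro d hd u hu
    rw [Subgroup.mem_iInf] at hu ⊢
    exact fun x => (hV1 x).nor d hd u (hu x)
  · exact Subgroup.finiteIndex_iInf hfV
  · intro j h
    rw [Subgroup.mem_iInf]
    exact fun x => (hV1 x).rel j h
  · intro h hh
    rw [Subgroup.mem_iInf]
    exact fun x => (hV1 x).kil h hh
  · exact (iInf_le V ((1 : FF N) : FF N ⧸ W)).trans (hV2 _)
  · intro v hv hv'
    rw [Subgroup.mem_iInf] at hv'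
    exact hV3 _ v hv (hv' ((v : FF N) : FF N ⧸ W)) rfl

theorem cent_ne {W : Subgroup (FF N)} {g a b : FF N} (h : a⁻¹ * b ∉ W) :
    ((g⁻¹ * a : FF N) : FF N ⧸ W) ≠ ((g⁻¹ * b : FF N) : FF N ⧸ W) := by
  intro h1
  rw [QuotientGroup.eq] at h1
  apply h
  have h2 : (g⁻¹ * a)⁻¹ * (g⁻¹ * b) = a⁻¹ * b := by group
  rwa [h2] at h1

theorem cent_unkilled (hU : Lev e m D T U) (g : FF N) {C : FF N}
    (hCg : C = g * xn N * g⁻¹) (hC : C ∈ D) (hT : ∀ h ∈ T, g * h⁻¹ ∉ D) :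
    ∃ U' : Subgroup (FF N), Lev e m D T U' ∧ U' ≤ U ∧
      ∀ v ∈ D, v * C * v⁻¹ * C⁻¹ ∈ U' → ∃ a : ℤ, (C ^ a)⁻¹ * v ∈ U := by
  apply cent_fin hU hC
  intro v₀ hv₀ hv₀'
  obtain ⟨U', h1, h2, h3⟩ := cent_core hU g hCg hC 3 1 v₀ (Subgroup.one_mem _) hv₀ (Or.inr hT)
  refine ⟨U', h1, h2, fun v hv hv' h4 => ?_⟩
  obtain ⟨κ, hκ, hκ'⟩ := h3 v hv hv'
  have h5 : ((g⁻¹ * v : FF N) : FF N ⧸ WW D U C hC hU.nor) =
      ((g⁻¹ * v₀ : FF N) : FF N ⧸ WW D U C hC hU.nor) :=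
    congrArg (fun x : FF N ⧸ WW D U C hC hU.nor => g⁻¹ • x) h4
  have h6 : ((g⁻¹ * 1 : FF N) : FF N ⧸ WW D U C hC hU.nor) ≠
      ((g⁻¹ * v₀ : FF N) : FF N ⧸ WW D U C hC hU.nor) := cent_ne (by simpa using hv₀')
  have h7 : ((g⁻¹ : FF N) : FF N ⧸ WW D U C hC hU.nor) =
      ((g⁻¹ * 1 : FF N) : FF N ⧸ WW D U C hC hU.nor) := by rw [mul_one]
  have h8 := h6
  rw [← h7] at h8
  rw [h5, hκ, hκ, if_pos h7, if_neg h8, if_neg h6.symm, if_pos rfl] at hκ'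
  exact absurd hκ' (by decide)

/-- Enough cosets: a third one. -/
theorem exists_third {G : Type*} [Group G] (W Z : Subgroup G) (h : 3 ≤ W.relIndex Z) (v₀ : G) :
    ∃ v₁ ∈ Z, v₁ ∉ W ∧ v₀⁻¹ * v₁ ∉ W := by
  by_contra h1
  push Not at h1
  have hfin : Finite (Z ⧸ W.subgroupOf Z) := by
    apply Nat.finite_of_card_ne_zero
    change W.relIndex Z ≠ 0
    omega
  have h2 : Nat.card (Z ⧸ W.subgroupOf Z) ≤ 2 := by
    by_cases h3 : ∃ v : Z, (v : G) ∉ W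
    · obtain ⟨v, hv⟩ := h3
      have h4 : v₀⁻¹ * v ∈ W := h1 v v.2 hv
      have h5 : Function.Surjective (fun i : Fin 2 =>
          if i = 0 then ((1 : Z) : Z ⧸ W.subgroupOf Z) else (v : Z ⧸ W.subgroupOf Z)) := by
        intro x
        induction x using QuotientGroup.induction_on with
        | H z =>
          by_cases hz : (z : G) ∈ W
          · refine ⟨0, ?_⟩
            change ((1 : Z) : Z ⧸ W.subgroupOf Z) = _
            rw [QuotientGroup.eq, Subgroup.mem_subgroupOf]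
            simpa using hz
          · refine ⟨1, ?_⟩
            change ((v : Z) : Z ⧸ W.subgroupOf Z) = _
            rw [QuotientGroup.eq, Subgroup.mem_subgroupOf]
            have h6 := W.mul_mem (W.inv_mem h4) (h1 z z.2 hz)
            have h7 : (v₀⁻¹ * (v : G))⁻¹ * (v₀⁻¹ * z) = (v : G)⁻¹ * z := by group
            rw [h7] at h6
            exact h6
      have h8 := Nat.card_le_card_of_surjective _ h5
      simpa using h8
    · push Not at h3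
      have h5 : Function.Surjective (fun _ : Fin 1 => ((1 : Z) : Z ⧸ W.subgroupOf Z)) := by
        intro x
        induction x using QuotientGroup.induction_on with
        | H z =>
          refine ⟨0, ?_⟩
          change ((1 : Z) : Z ⧸ W.subgroupOf Z) = _
          rw [QuotientGroup.eq, Subgroup.mem_subgroupOf]
          simpa using h3 z
      have h8 := Nat.card_le_card_of_surjective _ h5
      have h9 : Nat.card (Fin 1) = 1 := by simp
      omega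
  have h3 : W.relIndex Z = Nat.card (Z ⧸ W.subgroupOf Z) := rfl
  omega

theorem cent_killed (hN : 4 ≤ N) (he : ∀ j, 2 ≤ e j) (hm : 2 ≤ m)
    (hU : Lev e m D T U) (g : FF N) {C : FF N}
    (hCg : C = g * xn N * g⁻¹) (hC : C ∈ D) (hT : ∃ h ∈ T, g * h⁻¹ ∈ D) :
    ∃ U' : Subgroup (FF N), Lev e m D T U' ∧ U' ≤ U ∧
      ∀ v ∈ D, v * C * v⁻¹ * C⁻¹ ∈ U' → ∃ a : ℤ, (C ^ a)⁻¹ * v ∈ U := by
  have hfU := hU.fin
  have hi : 0 < U.index := Nat.pos_of_ne_zero hfU.index_ne_zero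
  obtain ⟨U₁, hn₁, hf₁, he₁, hx₁, -, hi₁⟩ := big hN e he (3 * m * U.index) (by positivity)
  have hC₁ : C ∈ U₁ := by
    rw [hCg]
    exact hn₁.conj_mem _ hx₁ g
  -- the smaller level
  have hL : Lev e m D T (U ⊓ U₁) := by
    refine ⟨inf_le_left.trans hU.le, ?_, inferInstance, ?_, ?_⟩
    · rintro d hd u ⟨hu, hu'⟩
      exact ⟨hU.nor d hd u hu, hn₁.conj_mem _ hu' d⟩
    · intro j h
      exact ⟨hU.rel j h, hn₁.conj_mem _ (he₁ j) h⟩
    · intro h hh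
      exact ⟨hU.kil h hh, hn₁.conj_mem _ (U₁.pow_mem hx₁ m) h⟩
  have hCm : C ^ m ∈ U ⊓ U₁ := by
    refine ⟨?_, U₁.pow_mem hC₁ m⟩
    obtain ⟨h, hh, hd⟩ := hT
    have h1 := hU.nor _ hd _ (hU.kil h hh)
    have h2 : C ^ m = g * h⁻¹ * (h * xn N ^ m * h⁻¹) * (g * h⁻¹)⁻¹ := by
      rw [hCg, conj_pow]
      group
    rw [h2]
    exact h1
  set W := WW D (U ⊓ U₁) C hC hL.nor with hW
  set Z := ZZ D (U ⊓ U₁) C hC hL.le hL.nor with hZ
  have hUZ : U ≤ Z := by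
    intro u hu
    refine ⟨hU.le hu, ?_, ?_⟩
    · have h1 := U.mul_mem hu (hU.nor C hC _ (U.inv_mem hu))
      have h2 : u * C * u⁻¹ * C⁻¹ = u * (C * u⁻¹ * C⁻¹) := by group
      rw [h2]
      exact h1
    · exact U₁.mul_mem (hn₁.conj_mem _ hC₁ u) (U₁.inv_mem hC₁)
  have hUW : U ⊓ U₁ ≤ W := fun u hu => ⟨0, by simpa using hu⟩
  have hWZ : W ≤ Z := by
    rintro w ⟨a, ha⟩
    have h1 : (C ^ a)⁻¹ * w ∈ Z := hUZ ha.1
    have h2 : C ∈ Z := ⟨hC, by simp⟩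
    have h3 := Z.mul_mem (Z.zpow_mem h2 a) h1
    rwa [mul_inv_cancel_left] at h3
  have hidx : 3 ≤ W.relIndex Z := by
    have h1 : (U ⊓ U₁).relIndex U * U.index = (U ⊓ U₁).index :=
      Subgroup.relIndex_mul_index inf_le_left
    have h2 : U₁.index ≤ (U ⊓ U₁).index := Subgroup.index_antitone inf_le_right
    have h3 : 3 * m * U.index ≤ U₁.index :=
      Nat.le_of_dvd (Nat.pos_of_ne_zero hf₁.index_ne_zero) hi₁
    have h4 : 3 * m ≤ (U ⊓ U₁).relIndex U := by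
      have : 3 * m * U.index ≤ (U ⊓ U₁).relIndex U * U.index := by omega
      exact Nat.le_of_mul_le_mul_right this hi
    have h5 : (U ⊓ U₁).relIndex U * U.relIndex Z = (U ⊓ U₁).relIndex Z :=
      Subgroup.relIndex_mul_relIndex _ _ _ inf_le_left hUZ
    have h6 : (U ⊓ U₁).relIndex W * W.relIndex Z = (U ⊓ U₁).relIndex Z :=
      Subgroup.relIndex_mul_relIndex _ _ _ hUW hWZ
    have h7 : (U ⊓ U₁).relIndex W ≤ m := by
      have h8 : Function.Surjective (fun i : Fin m =>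
          (((⟨C ^ (i : ℕ), ⟨((i : ℕ) : ℤ), by simp⟩⟩ : W)) : W ⧸ (U ⊓ U₁).subgroupOf W)) := by
        intro x
        induction x using QuotientGroup.induction_on with
        | H w =>
          obtain ⟨w, a, ha⟩ := w
          have hm0 : (0 : ℤ) < m := by omega
          refine ⟨⟨(a % m).toNat, ?_⟩, ?_⟩
          · have := Int.emod_lt_of_pos a hm0
            have := Int.emod_nonneg a hm0.ne'
            omega
          · rw [QuotientGroup.eq, Subgroup.mem_subgroupOf]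
            change (C ^ (a % m).toNat)⁻¹ * w ∈ U ⊓ U₁
            have h9 : C ^ (a % m).toNat = C ^ (a % (m : ℤ)) := by
              rw [← zpow_natCast, Int.toNat_of_nonneg (Int.emod_nonneg a hm0.ne')]
            have h10 : C ^ a = C ^ (a % (m : ℤ)) * (C ^ m) ^ (a / (m : ℤ)) := by
              rw [← zpow_natCast, ← zpow_mul, ← zpow_add, Int.emod_add_mul_ediv]
            rw [h9]
            have h11 : (C ^ (a % (m : ℤ)))⁻¹ * w = (C ^ m) ^ (a / (m : ℤ)) * ((C ^ a)⁻¹ * w) := by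
              rw [h10]
              group
            rw [h11]
            exact Subgroup.mul_mem _ (Subgroup.zpow_mem _ hCm _) ha
      have h12 := Nat.card_le_card_of_surjective _ h8
      rw [Nat.card_fin] at h12
      exact h12
    by_contra h13
    push Not at h13
    have h14 : (U ⊓ U₁).relIndex W * W.relIndex Z ≤ m * 2 := Nat.mul_le_mul h7 (by omega)
    have h15 : 0 < U.relIndex Z := by
      have : (U.subgroupOf Z).FiniteIndex := inferInstance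
      exact Nat.pos_of_ne_zero this.index_ne_zero
    have h16 : 3 * m ≤ (U ⊓ U₁).relIndex U * U.relIndex Z :=
      h4.trans (Nat.le_mul_of_pos_right _ h15)
    omega
  obtain ⟨U', h1, h2, h3⟩ : ∃ U' : Subgroup (FF N), Lev e m D T U' ∧ U' ≤ U ⊓ U₁ ∧
      ∀ v ∈ D, v * C * v⁻¹ * C⁻¹ ∈ U' → ∃ a : ℤ, (C ^ a)⁻¹ * v ∈ U ⊓ U₁ := by
    apply cent_fin hL hC
    intro v₀ hv₀ hv₀'
    obtain ⟨v₁, hv₁, hv₁', hv₁''⟩ := exists_third W Z hidx v₀
    have hm0 : NeZero m := ⟨by omega⟩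
    obtain ⟨U', h1, h2, h3⟩ := cent_core hL g hCg hC m v₀ v₁ hv₀ hv₁ (Or.inl rfl)
    refine ⟨U', h1, h2, fun v hv hv' h4 => ?_⟩
    obtain ⟨κ, hκ, hκ'⟩ := h3 v hv hv'
    have h5 : ((g⁻¹ * v : FF N) : FF N ⧸ W) = ((g⁻¹ * v₀ : FF N) : FF N ⧸ W) :=
      congrArg (fun x : FF N ⧸ W => g⁻¹ • x) h4
    have h6 : ((g⁻¹ * 1 : FF N) : FF N ⧸ W) ≠ ((g⁻¹ * v₀ : FF N) : FF N ⧸ W) :=
      cent_ne (by simpa using hv₀')
    have h7 : ((g⁻¹ * 1 : FF N) : FF N ⧸ W) ≠ ((g⁻¹ * v₁ : FF N) : FF N ⧸ W) :=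
      cent_ne (by simpa using hv₁')
    have h8 : ((g⁻¹ * v₀ : FF N) : FF N ⧸ W) ≠ ((g⁻¹ * v₁ : FF N) : FF N ⧸ W) :=
      cent_ne hv₁''
    rw [h5, show (g⁻¹ : FF N) = g⁻¹ * 1 by rw [mul_one], hκ, hκ, if_neg h6, if_neg h7] at hκ'
    rw [mul_one] at hκ'
    rw [if_pos rfl, if_neg h8, sub_zero, sub_zero] at hκ'
    have : Fact (1 < m) := ⟨by omega⟩
    exact zero_ne_one hκ'
  exact ⟨U', h1, h2.trans inf_le_left, fun v hv hv' => by
    obtain ⟨a, ha⟩ := h3 v hv hv'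
    exact ⟨a, ha.1⟩⟩

end

/-- (CENT) -- helper2.  `C = g x_n g⁻¹`, killed or not. -/
theorem cent (hN : 4 ≤ N) (e : Fin N → ℕ) (he : ∀ j, 2 ≤ e j) (m : ℕ) (hm : 2 ≤ m)
    (D : Subgroup (FF N)) (hD : D.Normal) (_hDf : D.FiniteIndex) (hx : xn N ∈ D) (T : Set (FF N))
    (U : Subgroup (FF N)) (hU : Lev e m D T U) (g : FF N) :
    ∃ U' : Subgroup (FF N), Lev e m D T U' ∧ U' ≤ U ∧
      ∀ v ∈ D, v * (g * xn N * g⁻¹) * v⁻¹ * (g * xn N * g⁻¹)⁻¹ ∈ U' →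
        ∃ a : ℤ, ((g * xn N * g⁻¹) ^ a)⁻¹ * v ∈ U := by
  have hC : g * xn N * g⁻¹ ∈ D := hD.conj_mem _ hx g
  by_cases h : ∃ h ∈ T, g * h⁻¹ ∈ D
  · exact cent_killed hN he hm hU g rfl hC h
  · push Not at h
    exact cent_unkilled hU g rfl hC h

end Pool.MP_59b15d_al.Sym
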