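import Mathlib
import Pool.Agent.H.MP_59b15d_al.h94s.Ga4

set_option autoImplicit false

namespace Pool.MP_59b15d_al.Sym

open Pool.MP_59b15d_al.H76 (comap_fi)

variable {N : ℕ}

/-- (G0).  The congruence subgroup property of the pure mapping class group of the
punctured sphere, acting on the free group. -/
theorem g0 (H : Subgroup (MulAut (FF N))) (hH : H.relIndex (CP N) ≠ 0) :
    ∃ U : Subgroup (FF N), U.Normal ∧ U.FiniteIndex ∧
      ∀ f ∈ CP N, (∀ z, f z * z⁻¹ ∈ U) → f ∈ H := by
  cases N with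
  | zero =>
    refine ⟨⊤, inferInstance, inferInstance, fun f _ _ => ?_⟩
    have : f = 1 := by
      apply MulEquiv.ext
      intro z
      exact Subsingleton.elim _ _
    rw [this]
    exact one_mem _
  | succ n =>
    have hle : CP0 (n + 1) ≤ CP (n + 1) := fun f hf => hf.1
    have hH0 : H.relIndex (CP0 (n + 1)) ≠ 0 := fun h0 =>
      hH (Subgroup.relIndex_eq_zero_of_le_right hle h0)
    obtain ⟨U0, hU0n, hU0f, hU0⟩ := g0aux (n + 1) H hH0
    have hL : (H.comap (MulAut.conj : FF (n + 1) →* MulAut (FF (n + 1)))).FiniteIndex := by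
      constructor
      rw [← Subgroup.relIndex_top_right]
      exact fi_comap _ hH fun y _ => conj_CP y
    have hLc : (H.comap (MulAut.conj : FF (n + 1) →* MulAut (FF (n + 1)))).normalCore.FiniteIndex :=
      Subgroup.finiteIndex_normalCore _
    have hLcn : (H.comap (MulAut.conj : FF (n + 1) →* MulAut (FF (n + 1)))).normalCore.Normal :=
      Subgroup.normalCore_normal _
    obtain ⟨M, hMn, hMf, hMle, hM⟩ := cs_last
      (U0 ⊓ (H.comap (MulAut.conj : FF (n + 1) →* MulAut (FF (n + 1)))).normalCore)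
      inferInstance inferInstance
    refine ⟨M, hMn, hMf, fun f hf hfM => ?_⟩
    obtain ⟨g, hg⟩ := hf (Fin.last (n + 1))
    rw [per_last, xn_pp, map_inv] at hg
    have hg' : f (pp (n + 1) (n + 1)) = g * pp (n + 1) (n + 1) * g⁻¹ := by
      rw [← inv_inj, hg]
      group
    have h1 := hfM (pp (n + 1) (n + 1))
    rw [hg'] at h1
    obtain ⟨k, hk⟩ := hM g h1
    set u := g * pp (n + 1) (n + 1) ^ k with hu
    have huH' : u ∈ H.comap (MulAut.conj : FF (n + 1) →* MulAut (FF (n + 1))) :=
      Subgroup.normalCore_le _ hk.2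
    have huH : MulAut.conj u ∈ H := huH'
    have hf1 : (MulAut.conj u)⁻¹ * f ∈ H := by
      apply hU0
      · refine ⟨mul_mem (inv_mem (conj_CP u)) hf, ?_⟩
        rw [MulAut.mul_apply, hg', ← map_inv, MulAut.conj_apply, hu]
        group
      · intro z
        rw [MulAut.mul_apply, ← map_inv, MulAut.conj_apply]
        have e : u⁻¹ * f z * u⁻¹⁻¹ * z⁻¹ = u⁻¹ * (f z * z⁻¹) * (z * u * z⁻¹) := by group
        rw [e]
        exact U0.mul_mem (U0.mul_mem (U0.inv_mem hk.1) (hMle (hfM z)).1)
          (hU0n.conj_mem u hk.1 z)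
    have h2 := mul_mem huH hf1
    rwa [mul_inv_cancel_left] at h2

end Pool.MP_59b15d_al.Sym
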