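import Mathlib
import Pool.Agent.H.MP_59b15d_al.sym.Coch
import Pool.Agent.H.MP_59b15d_al.h95.Mfq

set_option autoImplicit false

namespace Pool.MP_59b15d_al.Sym

variable {N : ℕ}

/-- (MF) -- helper95.  The faces are the double cosets `K z ⟨x_n⟩`, with representatives `g₀` and
`g i`, `i < s`. -/
theorem mf (hN : 4 ≤ N) (e : Fin N → ℕ) (he : ∀ j, 2 ≤ e j) (K : Subgroup (FF N)) (hK : K.Normal)
    (hKf : K.FiniteIndex) (h1 : ∀ j, FreeGroup.of j ^ e j ∈ K)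
    (o1 : ∀ j (k : ℕ), FreeGroup.of j ^ k ∈ K → e j ∣ k) (m : ℕ) (hm : 2 ≤ m) (h2 : xn N ^ m ∈ K)
    (o2 : ∀ k : ℕ, xn N ^ k ∈ K → m ∣ k) (hB : 8 ≤ K.index) (g₀ : FF N) (s : ℕ) (g : Fin s → FF N)
    (hg : ∀ z : FF N, (∃ a : ℤ, z * xn N ^ a * g₀⁻¹ ∈ K) ∨ ∃ i, ∃ a : ℤ, z * xn N ^ a * (g i)⁻¹ ∈ K)
    (hg₀ : ∀ i, ∀ a : ℤ, g i * xn N ^ a * g₀⁻¹ ∉ K)
    (hgg : ∀ i j, i ≠ j → ∀ a : ℤ, g i * xn N ^ a * (g j)⁻¹ ∉ K) :
    ∃ (p : ℕ) (J : ↥K →* Gg p s), 3 ≤ p ∧ Function.Surjective J ∧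
      (∀ z : ↥K, J z = 1 ↔ (z : FF N) ∈ Rel' e) ∧
      (∀ z : ↥K, (z : FF N) = g₀ * xn N ^ m * g₀⁻¹ → J z = (cW p s)⁻¹) ∧
      ∀ (i : Fin s) (z : ↥K), (z : FF N) = g i * xn N ^ m * (g i)⁻¹ →
        ∃ w : Gg p s, J z = w * FreeGroup.of (Sum.inr i) * w⁻¹ := by
  obtain ⟨p, J, j1, j2, j3, j4, j5⟩ :=
    Pool.MP_59b15d_al.H95.mfFull (by omega) e (fun j => le_trans (by norm_num) (he j)) K hK hKf h1 o1
      m (by omega) h2 o2 g₀ s g hg hg₀ hgg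
  refine ⟨p, J, ?_, j1, j2, j3, j4⟩
  have e1 : ∑ j, (1 / e j : ℚ) ≤ N * (1 / 2) := by
    have h3 : ∀ j ∈ (Finset.univ : Finset (Fin N)), (1 / e j : ℚ) ≤ 1 / 2 := by
      intro j _
      have h4 : (2 : ℚ) ≤ e j := by exact_mod_cast he j
      exact one_div_le_one_div_of_le (by norm_num) h4
    have h4 := Finset.sum_le_sum h3
    rw [Finset.sum_const, Finset.card_univ, Fintype.card_fin, nsmul_eq_mul] at h4
    exact h4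
  have e2 : (1 / m : ℚ) ≤ 1 / 2 := by
    have h4 : (2 : ℚ) ≤ m := by exact_mod_cast hm
    exact one_div_le_one_div_of_le (by norm_num) h4
  have e3 : (4 : ℚ) ≤ N := by exact_mod_cast hN
  have e4 : (8 : ℚ) ≤ K.index := by exact_mod_cast hB
  have e5 : (1 / 2 : ℚ) ≤ N - 1 - ∑ j, (1 / e j : ℚ) - 1 / m := by linarith
  have e6 : (8 * (1 / 2) : ℚ) ≤ K.index * (N - 1 - ∑ j, (1 / e j : ℚ) - 1 / m) :=
    mul_le_mul e4 e5 (by norm_num) (by linarith)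
  rw [← j5] at e6
  have e7 : (3 : ℚ) ≤ p := by linarith
  exact_mod_cast e7

/-- (MF, closed) -- helper95.  The quotient by all faces is a closed surface group. -/
theorem mf_closed (hN : 4 ≤ N) (e : Fin N → ℕ) (he : ∀ j, 2 ≤ e j) (K : Subgroup (FF N))
    (hK : K.Normal) (hKf : K.FiniteIndex) (h1 : ∀ j, FreeGroup.of j ^ e j ∈ K)
    (o1 : ∀ j (k : ℕ), FreeGroup.of j ^ k ∈ K → e j ∣ k) (m : ℕ) (hm : 2 ≤ m) (h2 : xn N ^ m ∈ K)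
    (o2 : ∀ k : ℕ, xn N ^ k ∈ K → m ∣ k) {G : Type*} [Group G] (q : ↥K →* G)
    (hq : Function.Surjective q)
    (hk : ∀ z : ↥K, q z = 1 ↔ (z : FF N) ∈ Rel (Fin.lastCases m e : Fin (N + 1) → ℕ)) :
    ∃ (p : ℕ) (a b : Fin p → G), Pool.MP_59b15d_al.H76.StdGen a b ∧
      (2 * p - 2 : ℚ) = K.index * (N - 1 - ∑ j, (1 / e j : ℚ) - 1 / m) :=
  Pool.MP_59b15d_al.H95.mfClosed (by omega) e (fun j => le_trans (by norm_num) (he j)) K hK hKf h1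
    o1 m (by omega) h2 o2 q hq hk

end Pool.MP_59b15d_al.Sym
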