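import Mathlib
import Pool.Agent.H.MP_59b15d_al.h94s.Fa4

set_option autoImplicit false

namespace Pool.MP_59b15d_al.Sym

variable {N : ℕ}

/-- (FAITH, all points killed). -/
theorem faithA (hN : 4 ≤ N) (e : Fin N → ℕ) (he : ∀ j, 2 ≤ e j) (m : ℕ) (hm : 2 ≤ m)
    (V : Subgroup (FF N)) (hV : V.Normal) (hVf : V.FiniteIndex)
    (h1 : ∀ j, FreeGroup.of j ^ e j ∈ V) (h2 : xn N ^ m ∈ V)
    (o1 : ∀ j (k : ℕ), FreeGroup.of j ^ k ∈ V → e j ∣ k) (o2 : ∀ k : ℕ, xn N ^ k ∈ V → m ∣ k) :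
    ∃ U : Subgroup (FF N), U.Normal ∧ U.FiniteIndex ∧ U ≤ V ∧ (∀ j, FreeGroup.of j ^ e j ∈ U) ∧
      xn N ^ m ∈ U ∧ ∀ d : FF N, (∀ v ∈ V, d * v * d⁻¹ * v⁻¹ ∈ U) → d ∈ V := by
  let E : Fin (N + 1) → ℕ := Fin.snoc e m
  have hEc : ∀ j : Fin N, E j.castSucc = e j := fun j => by simp [E]
  have hEl : E (Fin.last N) = m := by simp [E]
  obtain ⟨U, hUn, hUf, hUV, hUE, hU⟩ := faith0 hN E (fun j => by
      refine Fin.lastCases ?_ (fun i => ?_) j
      · rw [hEl]; exact hm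
      · rw [hEc]; exact he i) V hV hVf (fun j => by
      refine Fin.lastCases ?_ (fun i => ?_) j
      · rw [hEl, per_last]; exact h2
      · rw [hEc, per_castSucc]; exact h1 i) (fun j => by
      refine Fin.lastCases ?_ (fun i => ?_) j
      · rw [hEl, per_last]; exact o2
      · rw [hEc, per_castSucc]; exact o1 i)
  refine ⟨U, hUn, hUf, hUV, fun j => ?_, ?_, hU⟩
  · have h := hUE j.castSucc
    rwa [hEc, per_castSucc] at h
  · have h := hUE (Fin.last N)
    rwa [hEl, per_last] at h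

/-- (FAITH, all points but the last killed). -/
theorem faithB (hN : 4 ≤ N) (e : Fin N → ℕ) (he : ∀ j, 2 ≤ e j)
    (V : Subgroup (FF N)) (hV : V.Normal) (hVf : V.FiniteIndex)
    (h1 : ∀ j, FreeGroup.of j ^ e j ∈ V)
    (o1 : ∀ j (k : ℕ), FreeGroup.of j ^ k ∈ V → e j ∣ k) :
    ∃ U : Subgroup (FF N), U.Normal ∧ U.FiniteIndex ∧ U ≤ V ∧ (∀ j, FreeGroup.of j ^ e j ∈ U) ∧
      ∀ d : FF N, (∀ v ∈ V, d * v * d⁻¹ * v⁻¹ ∈ U) → d ∈ V := by
  classical
  let j0 : Fin N := ⟨0, by omega⟩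
  have hne : NeZero (e j0) := ⟨by have := he j0; omega⟩
  let χ : FF N →* Multiplicative (ZMod (e j0)) :=
    FreeGroup.lift fun j => if j = j0 then Multiplicative.ofAdd 1 else 1
  have hχ : ∀ j : Fin N, χ (FreeGroup.of j) = if j = j0 then Multiplicative.ofAdd 1 else 1 :=
    fun j => FreeGroup.lift_apply_of
  have hχn : χ (xn N) = (Multiplicative.ofAdd (1 : ZMod (e j0)))⁻¹ := by
    unfold xn
    rw [map_inv, map_list_prod, List.map_ofFn]
    congr 1
    rw [List.prod_ofFn]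
    simp only [Function.comp_apply, hχ]
    rw [Finset.prod_ite_eq' Finset.univ j0 (fun _ => Multiplicative.ofAdd (1 : ZMod (e j0)))]
    simp
  have hkf : χ.ker.FiniteIndex := Subgroup.finiteIndex_ker χ
  let V' : Subgroup (FF N) := V ⊓ χ.ker
  have hV'n : V'.Normal := inferInstance
  have hV'f : V'.FiniteIndex := inferInstance
  have hfin : Finite (FF N ⧸ V') := Subgroup.finite_quotient_of_finiteIndex
  let m := orderOf ((xn N : FF N) : FF N ⧸ V')
  have hmem : ∀ k : ℕ, xn N ^ k ∈ V' ↔ m ∣ k := by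
    intro k
    rw [← QuotientGroup.eq_one_iff, orderOf_dvd_iff_pow_eq_one]
    rfl
  have hm0 : m ≠ 0 := (orderOf_pos _).ne'
  have hm1 : m ≠ 1 := by
    intro hm
    have h3 := (hmem 1).mpr (by rw [hm])
    rw [pow_one] at h3
    have h4 : χ (xn N) = 1 := h3.2
    rw [hχn, inv_eq_one] at h4
    have h5 : (1 : ZMod (e j0)) = 0 := by
      have := congrArg Multiplicative.toAdd h4
      exact this
    have h6 : Fact (1 < e j0) := ⟨by have := he j0; omega⟩
    exact one_ne_zero h5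
  obtain ⟨U, hUn, hUf, hUV, hUE, -, hU⟩ := faithA hN e he m (by omega) V' hV'n hV'f
    (fun j => ⟨h1 j, by
      change χ (FreeGroup.of j ^ e j) = 1
      rw [map_pow, hχ]
      by_cases hj : j = j0
      · rw [if_pos hj, ← ofAdd_nsmul, hj, nsmul_eq_mul, mul_one, ZMod.natCast_self]
        rfl
      · rw [if_neg hj, one_pow]⟩)
    ((hmem m).mpr dvd_rfl) (fun j k hk => o1 j k hk.1) (fun k hk => (hmem k).mp hk)
  refine ⟨U, hUn, hUf, fun x hx => (hUV hx).1, hUE, fun d hd => ?_⟩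
  exact (hU d fun v hv => hd v hv.1).1

end Pool.MP_59b15d_al.Sym
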