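import Mathlib
import Pool.Agent.H.MP_59b15d_al.sym.Ctr
import Pool.Agent.H.MP_59b15d_al.sym.Cent
import Pool.Agent.H.MP_59b15d_al.sym.Faith
import Pool.Agent.H.MP_59b15d_al.sym.Mf
import Pool.Agent.H.MP_59b15d_al.sym.Glue
import Pool.Agent.H.MP_59b15d_al.h77s.Cl
import Pool.Agent.H.MP_59b15d_al.h76r.Sd

set_option autoImplicit false

namespace Pool.MP_59b15d_al.Sym

variable {N : ℕ}

/-- (CONE) -- helper77. -/
theorem cone (hN : 4 ≤ N) (e : Fin N → ℕ) (he : ∀ j, 2 ≤ e j) (m : ℕ) (hm : 2 ≤ m)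
    (V : Subgroup (FF N)) (hV : V.Normal) (hVf : V.FiniteIndex)
    (h1 : ∀ j, FreeGroup.of j ^ e j ∈ V) :
    ∃ Γ : Subgroup (FF N), Γ.Normal ∧ Γ.FiniteIndex ∧ (∀ j, FreeGroup.of j ^ e j ∈ Γ) ∧
      xn N ^ m ∈ Γ ∧ ∀ f ∈ CP N, f (xn N) = xn N → (∀ z, f z * z⁻¹ ∈ Γ) →
        ∃ a : ℤ, InnOn V ⊤ f (xn N ^ a) := by
  obtain ⟨K, k1, k2, k3, k4, k5, k6, k7, k8⟩ := ctr hN e he m hm 8
  have hC : CK e m K := ⟨k1, k2, k3, k4, k5, k6, k7, k8⟩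
  obtain ⟨D, hD⟩ := exists_D hC
  obtain ⟨r, g, hg0, hg, hgg⟩ := exists_faces hC hD
  have hcl : ∀ k, k ≤ r → Claim e m D r g (k + 1) := by
    intro k
    induction k with
    | zero => exact fun _ => claim_one hN he hm hC hD r g hg0 hg hgg
    | succ k ih =>
      intro hk
      exact claim_succ hN he hm hC hD r g hg hgg (k + 1) (by omega) (ih (by omega))
  obtain ⟨Uf, hUn, hUf, hUV, hU1, hU⟩ := faithB hN e he (V ⊓ K) inferInstance inferInstance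
    (fun j => ⟨h1 j, k3 j⟩) (fun j k h => k5 j k h.2)
  have hUK : Uf ≤ K := hUV.trans inf_le_right
  have hL : Lev e m D {h | ∀ i : Fin (r + 1), (i : ℕ) < r + 1 → (g i)⁻¹ * h ∉ D} Uf := by
    refine ⟨hUK.trans hD.le, fun d _ u hu => hUn.conj_mem u hu d, hUf,
      fun j h => hUn.conj_mem _ (hU1 j) h, fun h hh => ?_⟩
    obtain ⟨i, hi⟩ := hg h
    exact absurd hi (hh i i.2)
  obtain ⟨Γ, hΓn, hΓf, hΓ1, hΓ2, hΓ⟩ := hcl r le_rfl Uf hL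
  refine ⟨Γ, hΓn, hΓf, hΓ1, hΓ2, fun f hf hfx hfz => ?_⟩
  obtain ⟨a, ha⟩ := hΓ f hf hfx hfz
  refine ⟨a, fun y _ => ?_⟩
  -- `f0 = conj (x_n ^ -a) ∘ f`
  set x := xn N ^ a with hx
  set f0 : MulAut (FF N) := MulAut.conj x⁻¹ * f with hf0
  have hf0z : ∀ z, f0 z = x⁻¹ * f z * x⁻¹⁻¹ := fun z => rfl
  have hf0D : ∀ z ∈ D, f0 z * z⁻¹ ∈ Uf := by
    intro z hz
    have h2 := hUn.conj_mem _ (ha z hz) x⁻¹
    have h3 : x⁻¹ * (f z * (x * z * x⁻¹)⁻¹) * x⁻¹⁻¹ = f0 z * z⁻¹ := by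
      rw [hf0z]
      group
    rwa [h3] at h2
  have hd := hU (y⁻¹ * f0 y) fun v hv => by
    have hvD : v ∈ D := hD.le hv.2
    have hyv : y * v * y⁻¹ ∈ D := hD.le (hC.nor.conj_mem _ hv.2 y)
    have h2 := hf0D v hvD
    have h3 := hf0D _ hyv
    rw [map_mul, map_mul, map_inv] at h3
    have h4 := hUn.conj_mem _ (Uf.mul_mem (hUn.conj_mem _ (Uf.inv_mem h2) (f0 y)) h3) y⁻¹
    have h5 : y⁻¹ * (f0 y * (f0 v * v⁻¹)⁻¹ * (f0 y)⁻¹ * (f0 y * f0 v * (f0 y)⁻¹ *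
        (y * v * y⁻¹)⁻¹)) * y⁻¹⁻¹ = y⁻¹ * f0 y * v * (y⁻¹ * f0 y)⁻¹ * v⁻¹ := by group
    rwa [h5] at h4
  have h6 : f y * (x * y * x⁻¹)⁻¹ = x * y * (y⁻¹ * f0 y) * (x * y)⁻¹ := by
    rw [hf0z]
    group
  rw [h6]
  exact hV.conj_mem _ hd.1 (x * y)

end Pool.MP_59b15d_al.Sym
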