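import Mathlib
import Pool.Agent.H.MP_59b15d_al.sym.Perm

set_option autoImplicit false

namespace Pool.MP_59b15d_al.Sym

variable {N : ℕ}

theorem per_prod : (List.ofFn fun j : Fin (N + 1) => per j).prod = 1 := by
  rw [List.ofFn_succ_last, List.prod_append, List.prod_singleton, per_last]
  have h1 : (List.ofFn fun j : Fin N => (per j.castSucc : FF N)).prod = (xn N)⁻¹ := by
    rw [xn, inv_inv]
    congr 2
    funext j
    exact per_castSucc j
  rw [h1, inv_mul_cancel]

/-- The rotation, as an endomorphism. -/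
def rotE (N : ℕ) : Monoid.End (FF N) := FreeGroup.lift fun j : Fin N => per j.succ

theorem rotE_per (j : Fin (N + 1)) : rotE N (per j) = per (j + 1) := by
  refine Fin.lastCases ?_ (fun j => ?_) j
  · rw [per_last, Fin.last_add_one, xn, rotE]
    have h1 := per_prod (N := N)
    rw [List.ofFn_succ, List.prod_cons] at h1
    have h2 : FreeGroup.lift (fun j : Fin N => (per j.succ : FF N))
        (List.ofFn fun j : Fin N => FreeGroup.of j).prod =
        (List.ofFn fun j : Fin N => (per j.succ : FF N)).prod := by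
      rw [map_list_prod, List.map_ofFn]
      congr 2
      funext j
      simp
    have h3 : FreeGroup.lift (fun j : Fin N => (per j.succ : FF N))
        ((List.ofFn fun j : Fin N => FreeGroup.of j).prod)⁻¹ = per 0 := by
      rw [map_inv, h2]
      exact (eq_inv_of_mul_eq_one_left h1).symm
    exact h3
  · rw [per_castSucc, Fin.coeSucc_eq_succ, rotE]
    exact FreeGroup.lift_apply_of

/-- The shift of the points. -/
def sh (N : ℕ) : Equiv.Perm (Fin (N + 1)) := Equiv.addRight 1

theorem sh_apply (j : Fin (N + 1)) : sh N j = j + 1 := rfl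

theorem sh_pow_val (k : ℕ) (j : Fin (N + 1)) : (((sh N ^ k) j : Fin (N + 1)) : ℕ) =
    ((j : ℕ) + k) % (N + 1) := by
  induction k with
  | zero => simp [Nat.mod_eq_of_lt j.2]
  | succ k ih =>
    rw [pow_succ', Equiv.Perm.mul_apply, sh_apply, Fin.val_add, ih]
    rcases Nat.eq_zero_or_pos N with rfl | hN
    · simp [Nat.mod_one]
    · rw [Fin.val_one', Nat.mod_add_mod, Nat.add_mod_mod, ← Nat.add_assoc]

theorem rotE_pow (k : ℕ) (j : Fin (N + 1)) :
    (show FF N →* FF N from rotE N ^ k) (per j) = per ((sh N ^ k) j) := by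
  induction k with
  | zero => rfl
  | succ k ih =>
    have h1 : (show FF N →* FF N from rotE N ^ (k + 1)) (per j) =
        rotE N ((show FF N →* FF N from rotE N ^ k) (per j)) := by
      rw [pow_succ']
      rfl
    rw [h1, ih, rotE_per, pow_succ', Equiv.Perm.mul_apply, sh_apply]

theorem sh_pow_self (j : Fin (N + 1)) : (sh N ^ (N + 1)) j = j := by
  apply Fin.ext
  rw [sh_pow_val, Nat.add_mod_right, Nat.mod_eq_of_lt j.2]

theorem rotE_pow_eq_one : rotE N ^ (N + 1) = 1 := by
  apply FreeGroup.ext_hom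
  intro j
  have h1 := rotE_pow (N := N) (N + 1) j.castSucc
  rw [sh_pow_self, per_castSucc] at h1
  exact h1

/-- The rotation. -/
def rot (N : ℕ) : MulAut (FF N) where
  toFun := (show FF N →* FF N from rotE N)
  invFun := (show FF N →* FF N from rotE N ^ N)
  left_inv := fun z => by
    have h1 : (show FF N →* FF N from rotE N ^ N * rotE N) z = z := by
      rw [← pow_succ, rotE_pow_eq_one]
      rfl
    exact h1
  right_inv := fun z => by
    have h1 : (show FF N →* FF N from rotE N * rotE N ^ N) z = z := by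
      rw [← pow_succ', rotE_pow_eq_one]
      rfl
    exact h1
  map_mul' := map_mul (show FF N →* FF N from rotE N)

theorem rot_per (j : Fin (N + 1)) : rot N (per j) = per (j + 1) := rotE_per j

theorem rot_pow (k : ℕ) (j : Fin (N + 1)) : (rot N ^ k) (per j) = per ((sh N ^ k) j) := by
  induction k with
  | zero => rfl
  | succ k ih =>
    rw [pow_succ', MulAut.mul_apply, ih, rot_per, pow_succ', Equiv.Perm.mul_apply, sh_apply]

/-- For every point there is a rotation mapping it to the last one. -/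
theorem exists_rotLast (i : Fin (N + 1)) : ∃ (τ : MulAut (FF N)) (s : Equiv.Perm (Fin (N + 1))),
    (∀ j, τ (per j) = per (s j)) ∧ s i = Fin.last N := by
  refine ⟨rot N ^ (N - (i : ℕ)), sh N ^ (N - (i : ℕ)), fun j => rot_pow _ j, ?_⟩
  apply Fin.ext
  have := i.2
  rw [sh_pow_val, Fin.val_last, Nat.mod_eq_of_lt (by omega)]
  omega

section conj

variable {τ : MulAut (FF N)} {s : Equiv.Perm (Fin (N + 1))}

theorem rot_symm (hτ : ∀ j, τ (per j) = per (s j)) (j : Fin (N + 1)) :
    τ⁻¹ (per j) = per (s.symm j) := by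
  have h1 := hτ (s.symm j)
  rw [Equiv.apply_symm_apply] at h1
  rw [← h1, MulAut.inv_apply_self]

theorem rot_conj_CP (hτ : ∀ j, τ (per j) = per (s j)) {f : MulAut (FF N)} (hf : f ∈ CP N) :
    τ * f * τ⁻¹ ∈ CP N := by
  intro j
  obtain ⟨w, hw⟩ := hf (s.symm j)
  refine ⟨τ w, ?_⟩
  rw [MulAut.mul_apply, MulAut.mul_apply, rot_symm hτ, hw, map_mul, map_mul, map_inv, hτ,
    Equiv.apply_symm_apply]

theorem rot_Rel (hτ : ∀ j, τ (per j) = per (s j)) (e : Fin (N + 1) → ℕ) (z : FF N) :
    τ z ∈ Rel (fun j => e (s.symm j)) ↔ z ∈ Rel e := by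
  have key : ∀ (τ : MulAut (FF N)) (s : Equiv.Perm (Fin (N + 1))) (_ : ∀ j, τ (per j) = per (s j))
      (e : Fin (N + 1) → ℕ) (z : FF N), z ∈ Rel e → τ z ∈ Rel (fun j => e (s.symm j)) := by
    intro τ s hτ e z hz
    have hn : (Rel fun j => e (s.symm j)).Normal := Subgroup.normalClosure_normal
    have hn' : ((Rel fun j => e (s.symm j)).comap τ.toMonoidHom).Normal := hn.comap _
    have h1 : Rel e ≤ (Rel fun j => e (s.symm j)).comap τ.toMonoidHom := by
      apply Subgroup.normalClosure_le_normal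
      rintro _ ⟨j, rfl⟩
      change τ (per j ^ e j) ∈ Rel _
      rw [map_pow, hτ]
      apply Subgroup.subset_normalClosure
      exact ⟨s j, by simp⟩
    exact h1 hz
  constructor
  · intro h
    have h1 := key τ⁻¹ s.symm (rot_symm hτ) _ _ h
    rw [MulAut.inv_apply_self] at h1
    have h2 : (fun j => e (s.symm (s.symm.symm j))) = e := by
      funext j
      simp
    rw [h2] at h1
    exact h1
  · exact key τ s hτ e z

end conj

/-- Finite quotients where one of the points dies and the others do not. -/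
theorem big_pt (hN : 4 ≤ N) (e : Fin (N + 1) → ℕ) (he : ∀ j, 2 ≤ e j) (i : Fin (N + 1)) :
    ∃ U : Subgroup (FF N), U.Normal ∧ U.FiniteIndex ∧ (∀ j, per j ^ e j ∈ U) ∧ per i ∈ U ∧
      ∀ j, j ≠ i → per j ∉ U := by
  obtain ⟨τ, s, hτ, hs⟩ := exists_rotLast i
  obtain ⟨U, h1, h2, h3, h4, h5, -⟩ := big hN (fun j => e (s.symm j.castSucc)) (fun _ => he _) 1
    one_pos
  have hmem : ∀ z, z ∈ U.comap τ.toMonoidHom ↔ τ z ∈ U := fun z => Iff.rfl
  have h6 : ∀ j, s j = Fin.last N ∨ ∃ k : Fin N, s j = k.castSucc := by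
    intro j
    exact Fin.lastCases (motive := fun x => x = Fin.last N ∨ ∃ k : Fin N, x = k.castSucc)
      (Or.inl rfl) (fun k => Or.inr ⟨k, rfl⟩) (s j)
  refine ⟨U.comap τ.toMonoidHom, inferInstance, ?_, fun j => ?_, ?_, fun j hj => ?_⟩
  · exact ⟨by rw [Subgroup.index_comap_of_surjective U τ.surjective]; exact h2.index_ne_zero⟩
  · rw [hmem, map_pow, hτ]
    rcases h6 j with h7 | ⟨k, h7⟩
    · rw [h7, per_last]
      exact U.pow_mem h4 _
    · have h8 := h3 k
      rw [← h7, Equiv.symm_apply_apply] at h8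
      rw [h7, per_castSucc]
      exact h8
  · rw [hmem, hτ, hs, per_last]
    exact h4
  · rw [hmem, hτ]
    rcases h6 j with h7 | ⟨k, h7⟩
    · exact absurd (s.injective (h7.trans hs.symm)) hj
    · rw [h7, per_castSucc]
      intro h8
      have h9 := h5 k 1 (by rwa [pow_one])
      have h10 := he (s.symm k.castSucc)
      have h11 := Nat.le_of_dvd one_pos h9
      omega

end Pool.MP_59b15d_al.Sym
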