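import Mathlib
import Pool.Agent.H.MP_59b15d_al.h77s.MainK
import Pool.Agent.H.MP_59b15d_al.sym.Rot
import Pool.Agent.H.MP_59b15d_al.h76r.Sd

set_option autoImplicit false

namespace Pool.MP_59b15d_al.Sym

variable {N : ℕ}

/-- The mapping class group of the sphere with `n` marked points (orientation preserving, the points
may be permuted), acting on the free group: all automorphisms mapping, for some permutation `s` of
the points, every `x_j` to a conjugate of `x_{s j}`. -/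
def MS (N : ℕ) : Subgroup (MulAut (FF N)) where
  carrier := {f | ∃ s : Equiv.Perm (Fin (N + 1)), ∀ j, ∃ w : FF N, f (per j) = w * per (s j) * w⁻¹}
  mul_mem' := by
    rintro f g ⟨s, hf⟩ ⟨t, hg⟩
    refine ⟨s * t, fun j => ?_⟩
    obtain ⟨w, hw⟩ := hg j
    obtain ⟨v, hv⟩ := hf (t j)
    refine ⟨f w * v, ?_⟩
    rw [MulAut.mul_apply, hw, map_mul, map_mul, map_inv, hv, Equiv.Perm.mul_apply]
    group
  one_mem' := ⟨1, fun j => ⟨1, by simp⟩⟩
  inv_mem' := by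
    rintro f ⟨s, hf⟩
    refine ⟨s⁻¹, fun j => ?_⟩
    obtain ⟨v, hv⟩ := hf (s⁻¹ j)
    refine ⟨(f⁻¹ v)⁻¹, ?_⟩
    have h1 : f⁻¹ (f (per (s⁻¹ j))) = per (s⁻¹ j) := MulAut.inv_apply_self _ _ _
    rw [hv, show s (s⁻¹ j) = j from s.apply_symm_apply j, map_mul, map_mul, map_inv] at h1
    rw [← h1]
    group

theorem CP_le_MS : CP N ≤ MS N := fun _ hf => ⟨1, hf⟩

/-- The mapping classes of the marked sphere lifting to the covering given by `K`. -/
def PFK (K : Subgroup (FF N)) : Subgroup (MulAut (FF N)) where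
  carrier := {f | f ∈ MS N ∧ ∀ z, f z ∈ K ↔ z ∈ K}
  mul_mem' := by
    rintro f g ⟨hf, hf'⟩ ⟨hg, hg'⟩
    exact ⟨(MS N).mul_mem hf hg, fun z => (hf' (g z)).trans (hg' z)⟩
  one_mem' := ⟨(MS N).one_mem, fun z => Iff.rfl⟩
  inv_mem' := by
    rintro f ⟨hf, hf'⟩
    refine ⟨(MS N).inv_mem hf, fun z => ?_⟩
    have h1 := hf' (f⁻¹ z)
    rw [MulAut.apply_inv_self] at h1
    exact h1.symm

theorem PK_le_PFK (K : Subgroup (FF N)) : PK K ≤ PFK K :=
  fun _ hf => ⟨CP_le_MS hf.1, hf.2⟩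

section

variable {K : Subgroup (FF N)} {e : Fin (N + 1) → ℕ} {G : Type*} [Group G] {q : ↥K →* G}

/-- Automorphisms which are inner modulo a deep subgroup of `G` are inner modulo a given level. -/
theorem end1 (hN : 4 ≤ N) (hKn : K.Normal) (hkf : K.FiniteIndex) (he2 : ∀ j, 2 ≤ e j)
    (heK : ∀ j (k : ℕ), per j ^ k ∈ K ↔ e j ∣ k) (hq : Function.Surjective q)
    (hk : ∀ z : ↥K, q z = 1 ↔ (z : FF N) ∈ Rel e)
    (V : Subgroup (FF N)) (hV : V.Normal) (hVf : V.FiniteIndex)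
    (hR : ∀ j, per j ^ e j ∈ V) :
    ∃ Γ : Subgroup G, Γ.Characteristic ∧ Γ.FiniteIndex ∧
      ∀ f : MulAut (FF N), (∀ z, f z ∈ K ↔ z ∈ K) → ∀ φ : MulAut G,
        (∀ z z' : ↥K, (z' : FF N) = f z → φ (q z) = q z') →
        Pool.MP_59b15d_al.H76.InnMod Γ φ →
        ∃ g ∈ K, ∀ z, (MulAut.conj g⁻¹ * f) z * z⁻¹ ∈ V := by
  have hek : ∀ j, per j ^ e j ∈ K := fun j => (heK j _).2 dvd_rfl
  have heo : ∀ j (k : ℕ), per j ^ k ∈ K → e j ∣ k := fun j k h => (heK j k).1 h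
  obtain ⟨Uf, hUn, hUf, hUV, p1, p2, hU⟩ := faithA hN (fun j => e j.castSucc) (fun j => he2 _)
    (e (Fin.last N)) (he2 _) (K ⊓ V) inferInstance inferInstance
    (fun j => by
      rw [← per_castSucc]
      exact ⟨hek _, hR _⟩)
    (by
      rw [← per_last]
      exact ⟨hek _, hR _⟩)
    (fun j k h => by
      rw [← per_castSucc] at h
      exact heo _ _ h.1)
    (fun k h => by
      rw [← per_last] at h
      exact heo _ _ h.1)
  have hUR : Rel e ≤ Uf := (rel_le_iff e _ hUn).2 fun j => by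
    refine Fin.lastCases ?_ (fun j => ?_) j
    · rw [per_last]
      exact p2
    · rw [per_castSucc]
      exact p1 j
  have hUk : Uf ≤ K := hUV.trans inf_le_left
  set Γ' : Subgroup G := (Uf.subgroupOf K).map q with hΓ'
  have hΓ'f : Γ'.FiniteIndex := H76.map_fi q hq inferInstance
  have hΓ'm : ∀ z : ↥K, q z ∈ Γ' → (z : FF N) ∈ Uf := by
    rintro z ⟨u, hu, hz⟩
    have h2 : q (z * u⁻¹) = 1 := by rw [map_mul, map_inv, hz, mul_inv_cancel]
    have h3 := Uf.mul_mem (hUR ((hk _).1 h2)) hu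
    simpa using h3
  have hfg : Group.FG ↥K := inferInstance
  have hGfg : Group.FG G := Group.fg_of_surjective hq
  obtain ⟨Γ, hΓc, hΓf, hΓle⟩ := H76.exists_char_le Γ' hΓ'f
  refine ⟨Γ, hΓc, hΓf, fun f hf φ hφ hin => ?_⟩
  obtain ⟨h, hh⟩ := hin
  obtain ⟨g, rfl⟩ := hq h
  have hΓn : Γ.Normal := inferInstance
  have hf1k : ∀ z ∈ K, (MulAut.conj (g : FF N)⁻¹ * f) z * z⁻¹ ∈ Uf := by
    intro z hz
    have hfz : f z ∈ K := (hf z).2 hz
    have h2 := hφ ⟨z, hz⟩ ⟨f z, hfz⟩ rfl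
    have h3 := hΓn.conj_mem _ (hh (q ⟨z, hz⟩)) (q g)⁻¹
    rw [h2] at h3
    have h4 : (q g)⁻¹ * (q ⟨f z, hfz⟩ * (q g * q ⟨z, hz⟩ * (q g)⁻¹)⁻¹) * (q g)⁻¹⁻¹ =
        q (g⁻¹ * ⟨f z, hfz⟩ * g⁻¹⁻¹ * (⟨z, hz⟩ : ↥K)⁻¹) := by
      simp only [map_mul, map_inv]
      group
    rw [h4] at h3
    have h5 := hΓ'm _ (hΓle h3)
    exact h5
  exact ⟨g, g.2, fun z => (faith_use (V := K ⊓ V) (U := Uf) inferInstance hUn hU _
    (fun v hv => hf1k v hv.1) z).2⟩

/-- Mapping classes which are inner modulo a deep subgroup of `G` fix the marked points. -/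
theorem pure_of_deep (hN : 4 ≤ N) (hKn : K.Normal) (hkf : K.FiniteIndex) (he2 : ∀ j, 2 ≤ e j)
    (heK : ∀ j (k : ℕ), per j ^ k ∈ K ↔ e j ∣ k) (hq : Function.Surjective q)
    (hk : ∀ z : ↥K, q z = 1 ↔ (z : FF N) ∈ Rel e) :
    ∃ Γ : Subgroup G, Γ.Characteristic ∧ Γ.FiniteIndex ∧ ∀ f ∈ PFK K, ∀ φ : MulAut G,
        (∀ z z' : ↥K, (z' : FF N) = f z → φ (q z) = q z') →
        Pool.MP_59b15d_al.H76.InnMod Γ φ → f ∈ PK K := by
  have hb := big_pt hN e he2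
  choose U hU1 hU2 hU3 hU4 hU5 using hb
  obtain ⟨Γ, hc, hf, hΓ⟩ := end1 hN hKn hkf he2 heK hq hk (⨅ i, U i)
    (Subgroup.normal_iInf_normal hU1) (Subgroup.finiteIndex_iInf hU2)
    (fun j => Subgroup.mem_iInf.mpr fun i => hU3 i j)
  refine ⟨Γ, hc, hf, fun f hf φ hφ hin => ⟨?_, hf.2⟩⟩
  obtain ⟨g, hg, hgf⟩ := hΓ f hf.2 φ hφ hin
  obtain ⟨s, hs⟩ := hf.1
  have h2 : ∀ j, s j = j := by
    intro j
    by_contra h3
    obtain ⟨w, hw⟩ := hs j
    have h4 := Subgroup.mem_iInf.mp (hgf (per j)) (s j)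
    have h5 : (MulAut.conj g⁻¹ * f) (per j) ∈ U (s j) := by
      change g⁻¹ * f (per j) * g⁻¹⁻¹ ∈ U (s j)
      rw [hw]
      exact (hU1 _).conj_mem _ ((hU1 _).conj_mem _ (hU4 (s j)) w) _
    have h6 := (U (s j)).mul_mem ((U (s j)).inv_mem h4) h5
    have h7 : ((MulAut.conj g⁻¹ * f) (per j) * (per j)⁻¹)⁻¹ * (MulAut.conj g⁻¹ * f) (per j) =
        per j := by group
    rw [h7] at h6
    exact hU5 (s j) j (Ne.symm h3) h6
  intro j
  obtain ⟨w, hw⟩ := hs j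
  rw [h2] at hw
  exact ⟨w, hw⟩

/-- (MAIN, points permuted). -/
theorem main_fullK (hN : 4 ≤ N) (hKn : K.Normal) (hkf : K.FiniteIndex) (he2 : ∀ j, 2 ≤ e j)
    (heK : ∀ j (k : ℕ), per j ^ k ∈ K ↔ e j ∣ k) (hq : Function.Surjective q)
    (hk : ∀ z : ↥K, q z = 1 ↔ (z : FF N) ∈ Rel e)
    (H : Subgroup (MulAut (FF N))) (hH : H.relIndex (PFK K) ≠ 0)
    (hi : ∀ z ∈ K, MulAut.conj z ∈ H) :
    ∃ Γ : Subgroup G, Γ.Characteristic ∧ Γ.FiniteIndex ∧
      ∀ f ∈ PFK K, ∀ φ : MulAut G, (∀ z z' : ↥K, (z' : FF N) = f z → φ (q z) = q z') →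
        Pool.MP_59b15d_al.H76.InnMod Γ φ → f ∈ H := by
  have hH' : H.relIndex (PK K) ≠ 0 := fun h => hH (Subgroup.relIndex_eq_zero_of_le_right
    (PK_le_PFK K) h)
  obtain ⟨Γ₁, hc₁, hf₁, h₁⟩ := mainK hN K hKn hkf e he2 heK q hq hk H hH' hi
  obtain ⟨Γ₂, hc₂, hf₂, h₂⟩ := pure_of_deep hN hKn hkf he2 heK hq hk
  refine ⟨Γ₁ ⊓ Γ₂, H76.inf_char hc₁ hc₂, inferInstance, fun f hf φ hφ hin => ?_⟩
  obtain ⟨g, hg⟩ := hin
  exact h₁ f (h₂ f hf φ hφ ⟨g, fun x => (hg x).2⟩) φ hφ ⟨g, fun x => (hg x).1⟩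

end

section sym

variable {K : Subgroup (FF N)} {e : Fin (N + 1) → ℕ} {G : Type*} [Group G]

/-- `f` induces `φ` on `G = K / R_e`. -/
def Ind (K : Subgroup (FF N)) (q : ↥K →* G) (f : MulAut (FF N)) (φ : MulAut G) : Prop :=
  ∀ z z' : ↥K, (z' : FF N) = f z → φ (q z) = q z'

/-- The group of symmetric mapping classes (with the inner automorphisms): the automorphisms of `G`
induced by the mapping classes of the marked sphere lifting to the covering. -/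
def SS (K : Subgroup (FF N)) (q : ↥K →* G) : Subgroup (MulAut G) where
  carrier := {φ | ∃ f ∈ PFK K, Ind K q f φ}
  mul_mem' := by
    rintro φ ψ ⟨f, hf, hφ⟩ ⟨g, hg, hψ⟩
    refine ⟨f * g, (PFK K).mul_mem hf hg, fun z z' hz => ?_⟩
    have h1 : g (z : FF N) ∈ K := (hg.2 _).2 z.2
    rw [MulAut.mul_apply, hψ z ⟨g z, h1⟩ rfl]
    exact hφ ⟨g z, h1⟩ z' hz
  one_mem' := ⟨1, (PFK K).one_mem, fun z z' hz => by
    have : z' = z := Subtype.ext hz
    rw [this]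
    rfl⟩
  inv_mem' := by
    rintro φ ⟨f, hf, hφ⟩
    refine ⟨f⁻¹, (PFK K).inv_mem hf, fun z z' hz => ?_⟩
    have h1 := hφ z' z (by rw [hz, MulAut.apply_inv_self])
    rw [← h1, MulAut.inv_apply_self]

theorem Ind.unique {q : ↥K →* G} (hq : Function.Surjective q) {f : MulAut (FF N)} (hf : f ∈ PFK K)
    {φ ψ : MulAut G} (h1 : Ind K q f φ) (h2 : Ind K q f ψ) : φ = ψ := by
  ext x
  obtain ⟨z, rfl⟩ := hq x
  have h3 : f (z : FF N) ∈ K := (hf.2 _).2 z.2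
  rw [h1 z ⟨f z, h3⟩ rfl, h2 z ⟨f z, h3⟩ rfl]

theorem Rel_map_MS {e : Fin (N + 1) → ℕ} {f : MulAut (FF N)} {s : Equiv.Perm (Fin (N + 1))}
    (hs : ∀ j, ∃ w : FF N, f (per j) = w * per (s j) * w⁻¹) (he : ∀ j, e (s j) = e j) {z : FF N}
    (hz : z ∈ Rel e) : f z ∈ Rel e := by
  have hn : (Rel e).Normal := Subgroup.normalClosure_normal
  have hn' : ((Rel e).comap f.toMonoidHom).Normal := hn.comap _
  have h1 : Rel e ≤ (Rel e).comap f.toMonoidHom := by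
    apply Subgroup.normalClosure_le_normal
    rintro _ ⟨j, rfl⟩
    change f (per j ^ e j) ∈ Rel e
    obtain ⟨w, hw⟩ := hs j
    rw [map_pow, hw, conj_pow, ← he j]
    exact hn.conj_mem _ (Subgroup.subset_normalClosure ⟨s j, rfl⟩) w
  exact h1 hz

/-- Lifting automorphisms preserve the orders. -/
theorem order_PFK (hKn : K.Normal) (heK : ∀ j (k : ℕ), per j ^ k ∈ K ↔ e j ∣ k) {f : MulAut (FF N)}
    (hf : ∀ z, f z ∈ K ↔ z ∈ K)
    {s : Equiv.Perm (Fin (N + 1))} (hs : ∀ j, ∃ w : FF N, f (per j) = w * per (s j) * w⁻¹)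
    (j : Fin (N + 1)) : e (s j) = e j := by
  have key : ∀ n, e (s j) ∣ n ↔ e j ∣ n := by
    intro n
    obtain ⟨w, hw⟩ := hs j
    have h1 : f (per j ^ n) = w * per (s j) ^ n * w⁻¹ := by rw [map_pow, hw, conj_pow]
    rw [← heK, ← heK, ← hf (per j ^ n), h1]
    constructor
    · intro h
      exact hKn.conj_mem _ h w
    · intro h
      have h2 := hKn.conj_mem _ h w⁻¹
      have h3 : w⁻¹ * (w * per (s j) ^ n * w⁻¹) * w⁻¹⁻¹ = per (s j) ^ n := by group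
      rwa [h3] at h2
  exact Nat.dvd_antisymm ((key _).2 dvd_rfl) ((key _).1 dvd_rfl)

/-- Every lifting automorphism induces an automorphism of `G`. -/
theorem exists_Ind {q : ↥K →* G} (hKn : K.Normal) (heK : ∀ j (k : ℕ), per j ^ k ∈ K ↔ e j ∣ k)
    (hq : Function.Surjective q) (hk : ∀ z : ↥K, q z = 1 ↔ (z : FF N) ∈ Rel e)
    {f : MulAut (FF N)} (hf : f ∈ PFK K) : ∃ φ : MulAut G, Ind K q f φ := by
  -- the induced endomorphism
  have key : ∀ g ∈ PFK K, ∃ φ : G →* G, ∀ z z' : ↥K, (z' : FF N) = g z → φ (q z) = q z' := by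
    intro g hg
    let r : ↥K →* ↥K :=
      { toFun := fun z => ⟨g z, (hg.2 _).2 z.2⟩
        map_one' := Subtype.ext (map_one g)
        map_mul' := fun a b => Subtype.ext (map_mul g _ _) }
    have hr : ∀ z : ↥K, ((r z : ↥K) : FF N) = g z := fun z => rfl
    have h1 : q.ker ≤ (q.comp r).ker := by
      intro z hz
      rw [MonoidHom.mem_ker] at hz ⊢
      rw [MonoidHom.comp_apply, hk, hr]
      obtain ⟨s, hs⟩ := hg.1
      exact Rel_map_MS hs (fun j => order_PFK hKn heK hg.2 hs j) ((hk z).1 hz)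
    let φ : G →* G := (QuotientGroup.lift q.ker (q.comp r) h1).comp
      (QuotientGroup.quotientKerEquivOfSurjective q hq).symm.toMonoidHom
    refine ⟨φ, fun z z' hz => ?_⟩
    have h2 : (QuotientGroup.quotientKerEquivOfSurjective q hq).symm (q z) =
        (QuotientGroup.mk z : ↥K ⧸ q.ker) := by
      rw [MulEquiv.symm_apply_eq]
      rfl
    change QuotientGroup.lift q.ker (q.comp r) h1
      ((QuotientGroup.quotientKerEquivOfSurjective q hq).symm (q z)) = q z'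
    rw [h2]
    change q (r z) = q z'
    congr 1
    exact Subtype.ext hz.symm
  obtain ⟨φ, hφ⟩ := key f hf
  obtain ⟨ψ, hψ⟩ := key f⁻¹ ((PFK K).inv_mem hf)
  have h1 : ∀ x, ψ (φ x) = x := by
    intro x
    obtain ⟨z, rfl⟩ := hq x
    have h3 : f (z : FF N) ∈ K := (hf.2 _).2 z.2
    rw [hφ z ⟨f z, h3⟩ rfl]
    exact hψ ⟨f z, h3⟩ z (MulAut.inv_apply_self _ _ _).symm
  have h2 : ∀ x, φ (ψ x) = x := by
    intro x
    obtain ⟨z, rfl⟩ := hq x
    have h3 : f⁻¹ (z : FF N) ∈ K := (((PFK K).inv_mem hf).2 _).2 z.2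
    rw [hψ z ⟨f⁻¹ z, h3⟩ rfl]
    exact hφ ⟨f⁻¹ z, h3⟩ z (MulAut.apply_inv_self _ _ _).symm
  exact ⟨{ toFun := φ, invFun := ψ, left_inv := h1, right_inv := h2, map_mul' := map_mul φ }, hφ⟩

/-- The congruence subgroup property of the symmetric mapping class group. -/
theorem main_symK {q : ↥K →* G} (hN : 4 ≤ N) (hKn : K.Normal) (hkf : K.FiniteIndex)
    (he2 : ∀ j, 2 ≤ e j) (heK : ∀ j (k : ℕ), per j ^ k ∈ K ↔ e j ∣ k) (hq : Function.Surjective q)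
    (hk : ∀ z : ↥K, q z = 1 ↔ (z : FF N) ∈ Rel e)
    (H : Subgroup (MulAut G)) (hH : H.relIndex (SS K q) ≠ 0)
    (hi : ∀ x : G, MulAut.conj x ∈ H) :
    ∃ Γ : Subgroup G, Γ.Characteristic ∧ Γ.FiniteIndex ∧
      ∀ φ ∈ SS K q, Pool.MP_59b15d_al.H76.InnMod Γ φ → φ ∈ H := by
  choose φ hφ using fun f : PFK K => exists_Ind (q := q) hKn heK hq hk f.2
  have hmem : ∀ f : PFK K, φ f ∈ SS K q := fun f => ⟨f, f.2, hφ f⟩
  let Φ : PFK K →* SS K q :=
    { toFun := fun f => ⟨φ f, hmem f⟩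
      map_one' := Subtype.ext (Ind.unique hq (PFK K).one_mem (hφ 1) (fun z z' hz => by
        have : z' = z := Subtype.ext hz
        rw [this]
        rfl))
      map_mul' := fun f g => Subtype.ext (Ind.unique hq ((PFK K).mul_mem f.2 g.2) (hφ (f * g))
        (fun z z' hz => by
          have h1 : (g : MulAut (FF N)) (z : FF N) ∈ K := (g.2.2 _).2 z.2
          change φ f (φ g (q z)) = q z'
          rw [hφ g z ⟨(g : MulAut (FF N)) z, h1⟩ rfl]
          exact hφ f ⟨(g : MulAut (FF N)) z, h1⟩ z' hz)) }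
  let L : Subgroup (MulAut (FF N)) := ((H.subgroupOf (SS K q)).comap Φ).map (PFK K).subtype
  have hKf : L.relIndex (PFK K) ≠ 0 := by
    have h2 : (H.subgroupOf (SS K q)).FiniteIndex := ⟨hH⟩
    have h3 : ((H.subgroupOf (SS K q)).comap Φ).FiniteIndex := H76.comap_fi Φ h2
    have h4 : L.subgroupOf (PFK K) = (H.subgroupOf (SS K q)).comap Φ := by
      ext f
      rw [Subgroup.mem_subgroupOf]
      constructor
      · rintro ⟨g, hg, hgf⟩
        have : g = f := Subtype.ext hgf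
        rwa [← this]
      · intro h
        exact ⟨f, h, rfl⟩
    rw [Subgroup.relIndex, h4]
    exact h3.index_ne_zero
  have hKi : ∀ z ∈ K, MulAut.conj z ∈ L := by
    intro z hz
    have h2 : MulAut.conj z ∈ PFK K := by
      refine ⟨⟨1, fun j => ⟨z, rfl⟩⟩, fun y => ?_⟩
      change z * y * z⁻¹ ∈ K ↔ _
      constructor
      · intro h
        have h3 := K.mul_mem (K.mul_mem (K.inv_mem hz) h) hz
        have h4 : z⁻¹ * (z * y * z⁻¹) * z = y := by group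
        rwa [h4] at h3
      · intro h
        exact K.mul_mem (K.mul_mem hz h) (K.inv_mem hz)
    refine ⟨⟨MulAut.conj z, h2⟩, ?_, rfl⟩
    change (Φ ⟨MulAut.conj z, h2⟩ : MulAut G) ∈ H
    have h3 : φ ⟨MulAut.conj z, h2⟩ = MulAut.conj (q ⟨z, hz⟩) := by
      refine Ind.unique hq h2 (hφ ⟨MulAut.conj z, h2⟩) fun y y' hy => ?_
      rw [MulAut.conj_apply, ← map_inv, ← map_mul, ← map_mul]
      congr 1
      exact Subtype.ext hy.symm
    change φ ⟨MulAut.conj z, h2⟩ ∈ H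
    rw [h3]
    exact hi _
  obtain ⟨Γ, hc, hf, hΓ⟩ := main_fullK hN hKn hkf he2 heK hq hk L hKf hKi
  refine ⟨Γ, hc, hf, fun ψ hψ hin => ?_⟩
  obtain ⟨f, hf1, hf2⟩ := hψ
  obtain ⟨g, hg, hgf⟩ := hΓ f hf1 ψ hf2 hin
  have h2 : φ g = ψ := by
    have h3 : Ind K q f (φ g) := by
      have := hφ g
      have h4 : (g : MulAut (FF N)) = f := hgf
      rwa [h4] at this
    exact Ind.unique hq hf1 h3 hf2
  rw [← h2]
  exact hg

/-- The form for subgroups of finite index of `MulAut G`. -/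
theorem fullK {q : ↥K →* G} (hN : 4 ≤ N) (hKn : K.Normal) (hkf : K.FiniteIndex)
    (he2 : ∀ j, 2 ≤ e j) (heK : ∀ j (k : ℕ), per j ^ k ∈ K ↔ e j ∣ k) (hq : Function.Surjective q)
    (hk : ∀ z : ↥K, q z = 1 ↔ (z : FF N) ∈ Rel e)
    (H : Subgroup (MulAut G)) (hH : H.FiniteIndex) (hi : ∀ x : G, MulAut.conj x ∈ H) :
    ∃ Γ : Subgroup G, Γ.Characteristic ∧ Γ.FiniteIndex ∧
      ∀ f ∈ PFK K, ∀ φ : MulAut G, (∀ z z' : ↥K, (z' : FF N) = f z → φ (q z) = q z') →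
        Pool.MP_59b15d_al.H76.InnMod Γ φ → φ ∈ H := by
  have h1 : H.relIndex (SS K q) ≠ 0 := by
    have := Subgroup.isFiniteRelIndex_of_finiteIndex (H := H) (K := SS K q)
    exact Subgroup.relIndex_ne_zero
  obtain ⟨Γ, hc, hf, hΓ⟩ := main_symK hN hKn hkf he2 heK hq hk H h1 hi
  exact ⟨Γ, hc, hf, fun f hf φ hφ hin => hΓ φ ⟨f, hf, hφ⟩ hin⟩

end sym

end Pool.MP_59b15d_al.Sym
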