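import Mathlib
import Pool.Agent.H.MP_59b15d_al.h77s.MainK
import Pool.Agent.H.MP_59b15d_al.h76r.Sd

set_option autoImplicit false

namespace Pool.MP_59b15d_al.Sym

variable {N : ℕ}

/-- The automorphisms of the punctured sphere lifting to the covering given by `ρ`. -/
def PA {A : Type*} [Group A] (ρ : FF N →* A) : Subgroup (MulAut (FF N)) where
  carrier := {f | f ∈ CP N ∧ ∀ z, f z ∈ ρ.ker ↔ z ∈ ρ.ker}
  mul_mem' := by
    rintro f g ⟨hf, hf'⟩ ⟨hg, hg'⟩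
    exact ⟨(CP N).mul_mem hf hg, fun z => (hf' (g z)).trans (hg' z)⟩
  one_mem' := ⟨(CP N).one_mem, fun z => Iff.rfl⟩
  inv_mem' := by
    rintro f ⟨hf, hf'⟩
    refine ⟨(CP N).inv_mem hf, fun z => ?_⟩
    have h1 := hf' (f⁻¹ z)
    have h2 : f (f⁻¹ z) = z := by
      change (f * f⁻¹) z = z
      rw [mul_inv_cancel]
      rfl
    rw [h2] at h1
    exact h1.symm

theorem PA_eq {A : Type*} [Group A] (ρ : FF N →* A) : PA ρ = PK ρ.ker := rfl

/-- (MAIN) -- helper77.  `G = ker ρ / R_e`. -/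
theorem main (hN : 4 ≤ N) {A : Type*} [Group A] [Finite A] (ρ : FF N →* A)
    (h1 : ∀ j : Fin (N + 1), ρ (per j) ≠ 1) {G : Type*} [Group G]
    (q : ↥ρ.ker →* G) (hq : Function.Surjective q)
    (hk : ∀ z : ↥ρ.ker, q z = 1 ↔ (z : FF N) ∈ Rel fun j => orderOf (ρ (per j)))
    (H : Subgroup (MulAut (FF N))) (hH : H.relIndex (PA ρ) ≠ 0)
    (hi : ∀ z ∈ ρ.ker, MulAut.conj z ∈ H) :
    ∃ Γ : Subgroup G, Γ.Characteristic ∧ Γ.FiniteIndex ∧
      ∀ f ∈ PA ρ, ∀ φ : MulAut G, (∀ z z' : ↥ρ.ker, (z' : FF N) = f z → φ (q z) = q z') →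
        Pool.MP_59b15d_al.H76.InnMod Γ φ → f ∈ H := by
  refine mainK hN ρ.ker inferInstance (Subgroup.finiteIndex_ker ρ)
    (fun j => orderOf (ρ (per j))) (fun j => ?_) (fun j k => ?_) q hq hk H hH hi
  · have h2 : 0 < orderOf (ρ (per j)) := orderOf_pos _
    have h3 : orderOf (ρ (per j)) ≠ 1 := fun h3 => h1 j (orderOf_eq_one_iff.1 h3)
    omega
  · rw [MonoidHom.mem_ker, map_pow, orderOf_dvd_iff_pow_eq_one]

end Pool.MP_59b15d_al.Sym
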